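import Pool.Agent.H11ST.St

/-! Finiteness of the bad points and the inequality for the square of the length (MP_665203_co). -/

open MeasureTheory Metric Set Filter Topology
open scoped ENNReal NNReal

namespace H11ST

section Local
variable {V : Type*} [NormedAddCommGroup V] [InnerProductSpace ℝ V]

/-- a locally finite subset of a compact set is finite -/
theorem fin_of_loc {K B : Set V} (hK : IsCompact K) (hB : B ⊆ K)
    (h : ∀ z ∈ K, ∃ e, 0 < e ∧ (B ∩ ball z e).Finite) : B.Finite := by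
  choose! e he hf using h
  obtain ⟨t, htK, ht⟩ := hK.elim_nhds_subcover (fun z => ball z (e z))
    (fun z hz => ball_mem_nhds z (he z hz))
  have h1 : B ⊆ ⋃ z ∈ t, B ∩ ball z (e z) := by
    intro v hv
    have h2 := ht (hB hv)
    rw [mem_iUnion₂] at h2 ⊢
    obtain ⟨z, hz, hvz⟩ := h2
    exact ⟨z, hz, hv, hvz⟩
  refine Set.Finite.subset ?_ h1
  exact t.finite_toSet.biUnion fun z hz => hf z (htK z hz)

theorem norm_line_sq {x z u : V} (hu : ‖u‖ = 1) (s : ℝ) :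
    ‖z + s • u - x‖ ^ 2 = ‖z - x‖ ^ 2 + 2 * s * inner ℝ u (z - x) + s ^ 2 := by
  have e1 : z + s • u - x = (z - x) + s • u := by abel
  rw [e1, norm_add_sq_real, norm_smul, hu, inner_smul_right, real_inner_comm]
  simp only [Real.norm_eq_abs, mul_one, sq_abs]
  ring

theorem Lin.mono {S : Set V} {z u : V} {ε : ℝ} (h : Lin S z u ε) {s η : ℝ} (hη : 0 < η)
    (h1 : |s| + η ≤ ε) : Lin S (z + s • u) u η := by
  have hd : ∀ t : ℝ, dist (z + t • u) (z + s • u) = |t - s| := by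
    intro t
    rw [dist_eq_norm]
    have : z + t • u - (z + s • u) = (t - s) • u := by rw [sub_smul]; abel
    rw [this, norm_smul, h.unit]
    simp
  have hd0 : dist (z + s • u) z = |s| := by
    have := hd 0
    rw [zero_smul, add_zero, zero_sub, abs_neg, dist_comm] at this
    exact this
  refine ⟨hη, h.unit, ?_⟩
  ext v
  constructor
  · rintro ⟨hv, hb⟩
    rw [mem_ball] at hb
    have h2 : v ∈ S ∩ ball z ε := by
      refine ⟨hv, ?_⟩
      rw [mem_ball]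
      have := dist_triangle v (z + s • u) z
      linarith
    rw [h.eq] at h2
    obtain ⟨t, ht, rfl⟩ := h2
    rw [hd] at hb
    refine ⟨t - s, hb, ?_⟩
    rw [sub_smul]
    abel
  · rintro ⟨t, ht, rfl⟩
    have e1 : z + s • u + t • u = z + (s + t) • u := by rw [add_smul]; abel
    rw [e1]
    have h3 : |s + t| < ε := lt_of_le_of_lt (abs_add_le s t) (by linarith)
    have h2 : z + (s + t) • u ∈ S ∩ ball z ε := by
      rw [h.eq]
      exact ⟨s + t, h3, rfl⟩
    refine ⟨h2.1, ?_⟩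
    rw [mem_ball, hd]
    have : s + t - s = t := by ring
    rw [this]
    exact ht

theorem Lin.neg {S : Set V} {z u : V} {ε : ℝ} (h : Lin S z u ε) : Lin S z (-u) ε := by
  refine ⟨h.pos, by rw [norm_neg]; exact h.unit, ?_⟩
  rw [h.eq]
  ext v
  constructor
  · rintro ⟨s, hs, rfl⟩
    exact ⟨-s, by rw [abs_neg]; exact hs, by rw [smul_neg, neg_smul, neg_neg]⟩
  · rintro ⟨s, hs, rfl⟩
    exact ⟨-s, by rw [abs_neg]; exact hs, by rw [smul_neg, neg_smul]⟩

/-- a line point whose direction is not orthogonal to the radius is good -/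
theorem Lin.good {S : Set V} {x z u : V} {ε : ℝ} (h : Lin S z u ε)
    (hne : inner ℝ u (z - x) ≠ 0) : Good S x z := by
  rcases lt_or_gt_of_ne hne with h1 | h1
  · refine ⟨-u, ε, h.neg, ?_⟩
    rw [inner_neg_left]
    linarith
  · exact ⟨u, ε, h, h1⟩

theorem inner_line {x z u : V} (hu : ‖u‖ = 1) (s : ℝ) :
    inner ℝ u (z + s • u - x) = inner ℝ u (z - x) + s := by
  have e1 : z + s • u - x = (z - x) + s • u := by abel
  rw [e1, inner_add_right, inner_smul_right, real_inner_self_eq_norm_sq, hu]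
  ring

/-- on the arm of a tripod (without the centre) the set is a line -/
theorem Tri.lin {S : Set V} {y : V} {u : Fin 3 → V} {ε : ℝ} (T : Tri S y u ε) (i : Fin 3) {s : ℝ}
    (h0 : 0 < s) (h1 : s < ε) : Lin S (y + s • u i) (u i) (min s (ε - s)) := by
  have hη : 0 < min s (ε - s) := lt_min h0 (by linarith)
  refine ⟨hη, T.norm i, ?_⟩
  ext v
  constructor
  · rintro ⟨hv, hb⟩
    rw [mem_ball, lt_min_iff] at hb
    have h2 : v ∈ S ∩ ball y ε := by
      refine ⟨hv, ?_⟩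
      rw [mem_ball]
      have h3 := dist_triangle v (y + s • u i) y
      have h4 : dist (y + s • u i) y = |s| := T.dist_arm
      rw [abs_of_pos h0] at h4
      linarith [hb.2]
    rw [T.eq] at h2
    obtain ⟨j, t, ht0, ht1, rfl⟩ := h2
    by_cases hij : i = j
    · subst hij
      have h3 : dist (y + t • u i) (y + s • u i) = |t - s| := T.dist_same
      rw [h3] at hb
      refine ⟨t - s, lt_min hb.1 hb.2, ?_⟩
      rw [sub_smul]
      abel
    · exfalso
      have h3 : s ≤ dist (y + t • u j) (y + s • u i) := by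
        rw [dist_eq_norm]
        have e1 : y + t • u j - (y + s • u i) = t • u j - s • u i := by abel
        rw [e1]
        have h2 : ‖t • u j - s • u i‖ ^ 2 = t ^ 2 + t * s + s ^ 2 := by
          rw [norm_sub_sq_real, norm_smul, norm_smul, T.norm i, T.norm j, inner_smul_left,
            inner_smul_right, T.ang j i (Ne.symm hij)]
          simp only [Real.norm_eq_abs, mul_one, sq_abs, conj_trivial]
          ring
        have h3 : s ^ 2 ≤ ‖t • u j - s • u i‖ ^ 2 := by rw [h2]; nlinarith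
        exact le_of_sq_le_sq h3 (norm_nonneg _)
      linarith [hb.1]
  · rintro ⟨t, ht, rfl⟩
    rw [lt_min_iff] at ht
    have h2 := abs_lt.1 ht.1
    have h3 := abs_lt.1 ht.2
    have e1 : y + s • u i + t • u i = y + (s + t) • u i := by rw [add_smul]; abel
    rw [e1]
    refine ⟨T.mem (by linarith [h2.1]) (by linarith [h3.2]), ?_⟩
    have h4 : dist (y + (s + t) • u i) (y + s • u i) = |s + t - s| := T.dist_same
    rw [mem_ball, h4]
    have : s + t - s = t := by ring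
    rw [this]
    exact lt_min ht.1 ht.2

end Local

theorem finp (d : ℕ) : ST_FINP d := by
  intro S x ρ₀ hS hgood
  have hK : IsCompact (S ∩ sphere x ρ₀) := (isCompact_sphere x ρ₀).inter_left hS
  refine fin_of_loc hK subset_rfl fun z hz => ?_
  obtain ⟨u, ε, hL, hc⟩ := hgood z hz
  set c : ℝ := inner ℝ u (z - x) with hcdef
  refine ⟨min ε c, lt_min hL.pos hc, ?_⟩
  refine Set.Finite.subset (Set.finite_singleton z) ?_
  rintro v ⟨⟨hvS, hvs⟩, hvb⟩
  rw [mem_ball, lt_min_iff] at hvb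
  have h1 : v ∈ S ∩ ball z ε := ⟨hvS, by rw [mem_ball]; exact hvb.1⟩
  rw [hL.eq] at h1
  obtain ⟨s, hs, rfl⟩ := h1
  have h2 : ‖z + s • u - x‖ ^ 2 = ‖z - x‖ ^ 2 + 2 * s * c + s ^ 2 := norm_line_sq hL.unit s
  rw [mem_sphere, dist_eq_norm] at hvs
  have h3 : ‖z - x‖ = ρ₀ := by
    have := hz.2
    rwa [mem_sphere, dist_eq_norm] at this
  rw [hvs, h3] at h2
  have h4 : s * (2 * c + s) = 0 := by linarith
  have h5 : |s| < c := by
    have : dist (z + s • u) z = |s| := by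
      rw [dist_eq_norm]
      simp [norm_smul, hL.unit]
    rw [← this]
    exact hvb.2
  have h6 := abs_lt.1 h5
  rcases mul_eq_zero.1 h4 with h | h
  · rw [h]
    simp
  · exfalso
    linarith [h6.1]

theorem fbad (d : ℕ) : ST_FBAD d := by
  intro A S x r L hreg b hb
  have hK : IsCompact (S ∩ closedBall x b) := (isCompact_closedBall x b).inter_left L.hS
  have hB : {z ∈ S ∩ closedBall x b | ¬ Good S x z}.Finite := by
    refine fin_of_loc hK (fun z hz => hz.1) fun z hz => ?_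
    have hz' : z ∈ S ∩ ball x r := ⟨hz.1, closedBall_subset_ball hb hz.2⟩
    rcases hreg z hz' with ⟨u, ε, hL⟩ | ⟨u, ε, T⟩
    · refine ⟨ε, hL.pos, ?_⟩
      refine Set.Finite.subset (Set.finite_singleton (z + (-inner ℝ u (z - x)) • u)) ?_
      rintro v ⟨⟨⟨hvS, -⟩, hvg⟩, hvb⟩
      have h1 : v ∈ S ∩ ball z ε := ⟨hvS, hvb⟩
      rw [hL.eq] at h1
      obtain ⟨s, hs, rfl⟩ := h1
      have h2 : Lin S (z + s • u) u (ε - |s|) := hL.mono (by linarith) (by linarith)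
      by_contra hne
      refine hvg (h2.good ?_)
      rw [inner_line hL.unit]
      intro h0
      apply hne
      rw [mem_singleton_iff]
      have : s = -inner ℝ u (z - x) := by linarith
      rw [← this]
    · refine ⟨ε, T.pos, ?_⟩
      refine Set.Finite.subset ((Set.finite_singleton z).union
        (Set.finite_range fun i : Fin 3 => z + (-inner ℝ (u i) (z - x)) • u i)) ?_
      rintro v ⟨⟨⟨hvS, -⟩, hvg⟩, hvb⟩
      have h1 : v ∈ S ∩ ball z ε := ⟨hvS, hvb⟩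
      rw [T.eq] at h1
      obtain ⟨i, s, hs0, hs1, rfl⟩ := h1
      rcases hs0.eq_or_lt with h0 | h0
      · left
        rw [← h0]
        simp
      · right
        have h2 := T.lin i h0 hs1
        by_contra hne
        refine hvg (h2.good ?_)
        rw [inner_line (T.norm i)]
        intro h3
        apply hne
        refine ⟨i, ?_⟩
        have : s = -inner ℝ (u i) (z - x) := by linarith
        show z + (-inner ℝ (u i) (z - x)) • u i = z + s • u i
        rw [← this]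
  refine Set.Finite.subset (hB.image fun z => dist z x) ?_
  rintro ρ ⟨h0, h1, z, hz, hg⟩
  refine ⟨z, ⟨⟨hz.1, ?_⟩, hg⟩, hz.2⟩
  rw [mem_closedBall, mem_sphere.1 hz.2]
  exact h1

/-- the elementary inequality of the growth step -/
theorem gi_step {ι : Type*} (P : Finset ι) (hP : P.Nonempty) (c a : ι → ℝ) (D L₀ : ℝ) (hD : 0 < D)
    (ha : ∀ p ∈ P, 0 < a p ∧ a p ^ 2 + 2 * a p * c p = D) (hc : ∑ p ∈ P, c p ≤ L₀) :
    (P.card : ℝ) ^ 2 * D ≤ (∑ p ∈ P, a p) * ((∑ p ∈ P, a p) + 2 * L₀) := by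
  set s := ∑ p ∈ P, a p with hs
  have hs0 : 0 < s := Finset.sum_pos (fun p hp => (ha p hp).1) hP
  have h1 : ∑ p ∈ P, D / a p ≤ s + 2 * L₀ := by
    have h2 : ∑ p ∈ P, D / a p = s + 2 * ∑ p ∈ P, c p := by
      rw [hs, Finset.mul_sum, ← Finset.sum_add_distrib]
      refine Finset.sum_congr rfl fun p hp => ?_
      obtain ⟨h3, h4⟩ := ha p hp
      rw [div_eq_iff h3.ne', ← h4]
      ring
    rw [h2]
    linarith
  have h2 : (P.card : ℝ) ^ 2 ≤ s * ∑ p ∈ P, 1 / a p := by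
    have h3 := Finset.sum_mul_sq_le_sq_mul_sq P (fun p => Real.sqrt (a p))
      (fun p => Real.sqrt (1 / a p))
    have h4 : ∑ p ∈ P, Real.sqrt (a p) * Real.sqrt (1 / a p) = P.card := by
      have h40 : ∑ p ∈ P, Real.sqrt (a p) * Real.sqrt (1 / a p) = ∑ p ∈ P, (1 : ℝ) := by
        refine Finset.sum_congr rfl fun p hp => ?_
        have h5 := (ha p hp).1
        rw [← Real.sqrt_mul h5.le, mul_one_div_cancel h5.ne', Real.sqrt_one]
      rw [h40, Finset.sum_const, nsmul_eq_mul, mul_one]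
    have h5 : ∑ p ∈ P, Real.sqrt (a p) ^ 2 = s :=
      Finset.sum_congr rfl fun p hp => Real.sq_sqrt (ha p hp).1.le
    have h6 : ∑ p ∈ P, Real.sqrt (1 / a p) ^ 2 = ∑ p ∈ P, 1 / a p := by
      refine Finset.sum_congr rfl fun p hp => ?_
      exact Real.sq_sqrt (one_div_nonneg.2 (ha p hp).1.le)
    rw [h4, h5, h6] at h3
    exact h3
  have h3 : (P.card : ℝ) ^ 2 * D ≤ (s * ∑ p ∈ P, 1 / a p) * D :=
    mul_le_mul_of_nonneg_right h2 hD.le
  have h4 : (s * ∑ p ∈ P, 1 / a p) * D = s * ∑ p ∈ P, D / a p := by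
    have h40 : (∑ p ∈ P, 1 / a p) * D = ∑ p ∈ P, D / a p := by
      rw [Finset.sum_mul]
      exact Finset.sum_congr rfl fun p _ => by ring
    rw [mul_assoc, h40]
  rw [h4] at h3
  exact h3.trans (mul_le_mul_of_nonneg_left h1 hs0.le)

/-- growth of a function from one-sided growth at all points of an open interval -/
theorem gi_interval {L : ℝ → ℝ} {a b : ℝ} (hab : a ≤ b) (ha : 0 ≤ a) (M : ℝ) (hM : 0 ≤ M)
    (hL0 : ∀ ρ, 0 ≤ L ρ) (hmono : ∀ s t, a ≤ s → s ≤ t → t ≤ b → L s ≤ L t)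
    (hstep : ∀ ρ₀ ∈ Ioo a b, ∃ δ > 0, ∀ ρ, ρ₀ < ρ → ρ < ρ₀ + δ → ρ < b →
      L ρ₀ ^ 2 + M * (ρ ^ 2 - ρ₀ ^ 2) ≤ L ρ ^ 2) :
    L a ^ 2 + M * (b ^ 2 - a ^ 2) ≤ L b ^ 2 := by
  rcases hab.eq_or_lt with rfl | hlt
  · simp
  -- from an interior point `a'`
  have key : ∀ a', a < a' → a' < b → L a' ^ 2 + M * (b ^ 2 - a' ^ 2) ≤ L b ^ 2 := by
    intro a' h1 h2
    set T : Set ℝ := {s | a' ≤ s ∧ s ≤ b ∧ ∀ t, a' ≤ t → t ≤ s →
      L a' ^ 2 + M * (t ^ 2 - a' ^ 2) ≤ L t ^ 2} with hT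
    have hTa : a' ∈ T := by
      refine ⟨le_rfl, h2.le, fun t ht1 ht2 => ?_⟩
      have : t = a' := le_antisymm ht2 ht1
      rw [this]
      simp
    have hTb : BddAbove T := ⟨b, fun s hs => hs.2.1⟩
    set σ := sSup T with hσ
    have hσ1 : a' ≤ σ := le_csSup hTb hTa
    have hσ2 : σ ≤ b := csSup_le ⟨a', hTa⟩ fun s hs => hs.2.1
    have hlow : ∀ t, a' ≤ t → t < σ → L a' ^ 2 + M * (t ^ 2 - a' ^ 2) ≤ L t ^ 2 := by
      intro t ht1 ht2
      obtain ⟨s, hs, hts⟩ := exists_lt_of_lt_csSup ⟨a', hTa⟩ ht2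
      exact hs.2.2 t ht1 hts.le
    have hσT : L a' ^ 2 + M * (σ ^ 2 - a' ^ 2) ≤ L σ ^ 2 := by
      rcases hσ1.eq_or_lt with h3 | h3
      · rw [← h3]
        simp
      · have hcont : Tendsto (fun t : ℝ => L a' ^ 2 + M * (t ^ 2 - a' ^ 2)) (𝓝[<] σ)
            (𝓝 (L a' ^ 2 + M * (σ ^ 2 - a' ^ 2))) := by
          refine Tendsto.mono_left ?_ nhdsWithin_le_nhds
          exact Continuous.tendsto (by fun_prop) σ
        refine le_of_tendsto hcont ?_
        have h4 : Ioo a' σ ∈ 𝓝[<] σ := Ioo_mem_nhdsLT h3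
        filter_upwards [h4] with t ht
        refine (hlow t ht.1.le ht.2).trans ?_
        exact pow_le_pow_left₀ (hL0 t) (hmono t σ (by linarith [ht.1]) ht.2.le hσ2) 2
    have hσmem : σ ∈ T := by
      refine ⟨hσ1, hσ2, fun t ht1 ht2 => ?_⟩
      rcases ht2.eq_or_lt with h3 | h3
      · rw [h3]
        exact hσT
      · exact hlow t ht1 h3
    rcases hσ2.eq_or_lt with h3 | h3
    · rw [← h3]
      exact hσT
    · exfalso
      obtain ⟨δ, hδ, hst⟩ := hstep σ ⟨by linarith, h3⟩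
      set τ := σ + min (δ / 2) ((b - σ) / 2) with hτ
      have hm0 : 0 < min (δ / 2) ((b - σ) / 2) := lt_min (by linarith) (by linarith)
      have hm1 : min (δ / 2) ((b - σ) / 2) ≤ δ / 2 := min_le_left _ _
      have hm2 : min (δ / 2) ((b - σ) / 2) ≤ (b - σ) / 2 := min_le_right _ _
      have hτT : τ ∈ T := by
        refine ⟨by linarith, by linarith, fun t ht1 ht2 => ?_⟩
        rcases le_or_gt t σ with h4 | h4
        · exact hσmem.2.2 t ht1 h4
        · have h5 := hst t h4 (by linarith) (by linarith)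
          nlinarith [hσT]
      have := le_csSup hTb hτT
      linarith
  have hcont : Tendsto (fun t : ℝ => L a ^ 2 + M * (b ^ 2 - t ^ 2)) (𝓝[>] a)
      (𝓝 (L a ^ 2 + M * (b ^ 2 - a ^ 2))) := by
    refine Tendsto.mono_left ?_ nhdsWithin_le_nhds
    exact Continuous.tendsto (by fun_prop) a
  refine le_of_tendsto hcont ?_
  have h4 : Ioo a b ∈ 𝓝[>] a := Ioo_mem_nhdsGT hlt
  filter_upwards [h4] with t ht
  have h5 := key t ht.1 ht.2
  have h6 : L a ^ 2 ≤ L t ^ 2 := pow_le_pow_left₀ (hL0 a) (hmono a t le_rfl ht.1.le ht.2.le) 2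
  linarith

/-- the same with finitely many exceptional points -/
theorem gi_finite {L : ℝ → ℝ} (M : ℝ) (hM : 0 ≤ M) (hL0 : ∀ ρ, 0 ≤ L ρ) {B : Set ℝ}
    (hB : B.Finite) : ∀ n : ℕ, ∀ a b : ℝ, a ≤ b → 0 ≤ a → (B ∩ Ioo a b).ncard ≤ n →
    (∀ s t, a ≤ s → s ≤ t → t ≤ b → L s ≤ L t) →
    (∀ ρ₀ ∈ Ioo a b, ρ₀ ∉ B → ∃ δ > 0, ∀ ρ, ρ₀ < ρ → ρ < ρ₀ + δ → ρ < b →
      L ρ₀ ^ 2 + M * (ρ ^ 2 - ρ₀ ^ 2) ≤ L ρ ^ 2) →
    L a ^ 2 + M * (b ^ 2 - a ^ 2) ≤ L b ^ 2 := by
  intro n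
  induction n with
  | zero =>
    intro a b hab ha hn hmono hstep
    have hfin : (B ∩ Ioo a b).Finite := hB.subset inter_subset_left
    have h0 : B ∩ Ioo a b = ∅ := (Set.ncard_eq_zero hfin).1 (Nat.le_zero.1 hn)
    refine gi_interval hab ha M hM hL0 hmono fun ρ₀ hρ₀ => hstep ρ₀ hρ₀ fun hBρ => ?_
    have : ρ₀ ∈ B ∩ Ioo a b := ⟨hBρ, hρ₀⟩
    rw [h0] at this
    exact this
  | succ n ih =>
    intro a b hab ha hn hmono hstep
    by_cases hne : (B ∩ Ioo a b).Nonempty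
    · obtain ⟨c, hcB, hc⟩ := hne
      have hfin : (B ∩ Ioo a b).Finite := hB.subset inter_subset_left
      have h1 : (B ∩ Ioo a c).ncard < (B ∩ Ioo a b).ncard := by
        refine Set.ncard_lt_ncard ?_ hfin
        rw [Set.ssubset_iff_of_subset (inter_subset_inter_right _ (Ioo_subset_Ioo_right hc.2.le))]
        exact ⟨c, ⟨hcB, hc⟩, fun h => lt_irrefl c h.2.2⟩
      have h2 : (B ∩ Ioo c b).ncard < (B ∩ Ioo a b).ncard := by
        refine Set.ncard_lt_ncard ?_ hfin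
        rw [Set.ssubset_iff_of_subset (inter_subset_inter_right _ (Ioo_subset_Ioo_left hc.1.le))]
        exact ⟨c, ⟨hcB, hc⟩, fun h => lt_irrefl c h.2.1⟩
      have h3 := ih a c hc.1.le ha (by omega)
        (fun s t h1 h2 h3 => hmono s t h1 h2 (h3.trans hc.2.le))
        (fun ρ₀ hρ₀ hb => by
          obtain ⟨δ, hδ, h⟩ := hstep ρ₀ ⟨hρ₀.1, hρ₀.2.trans hc.2⟩ hb
          exact ⟨δ, hδ, fun ρ h1 h2 h3 => h ρ h1 h2 (h3.trans hc.2)⟩)
      have h4 := ih c b hc.2.le (ha.trans hc.1.le) (by omega)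
        (fun s t h1 h2 h3 => hmono s t (hc.1.le.trans h1) h2 h3)
        (fun ρ₀ hρ₀ hb => hstep ρ₀ ⟨hc.1.trans hρ₀.1, hρ₀.2⟩ hb)
      linarith
    · rw [Set.not_nonempty_iff_eq_empty] at hne
      refine gi_interval hab ha M hM hL0 hmono fun ρ₀ hρ₀ => hstep ρ₀ hρ₀ fun hBρ => ?_
      have : ρ₀ ∈ B ∩ Ioo a b := ⟨hBρ, hρ₀⟩
      rw [hne] at this
      exact this

theorem gi (d : ℕ) (hc : ST_CORE d) : ST_GI d := by
  intro A S x r L hA hreg a b ha hab hbr m hm
  have hlen : ∀ s t, a ≤ s → s ≤ t → t ≤ b → len S x s ≤ len S x t := by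
    intro s t _ h1 h2
    have := L.len_growth h1 (h2.trans hbr.le) 0 (fun _ _ => by simp)
    simpa using this
  rcases Nat.eq_zero_or_pos m with hm0 | hm0
  · subst hm0
    have := pow_le_pow_left₀ (len_nonneg S x a) (hlen a b le_rfl hab le_rfl) 2
    simpa using this
  have hB := fbad d A S x r L hreg b hbr
  refine gi_finite ((m : ℝ) ^ 2) (sq_nonneg _) (len_nonneg S x) hB _ a b hab ha le_rfl hlen ?_
  intro ρ₀ hρ₀ hgood
  have hρpos : 0 < ρ₀ := lt_of_le_of_lt ha hρ₀.1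
  have hg : ∀ z ∈ S ∩ sphere x ρ₀, Good S x z := by
    intro z hz
    by_contra hcon
    exact hgood ⟨hρpos, hρ₀.2.le, z, hz, hcon⟩
  have hfin : (S ∩ sphere x ρ₀).Finite := finp d S x ρ₀ L.hS hg
  set P := hfin.toFinset with hP
  have hmem : ∀ p, p ∈ P ↔ p ∈ S ∩ sphere x ρ₀ := fun p => by rw [hP, Set.Finite.mem_toFinset]
  have hcard : m ≤ P.card := by
    have h1 := hm ρ₀ hρ₀
    rw [hfin.encard_eq_coe_toFinset_card] at h1
    exact_mod_cast h1
  have hne : P.Nonempty := Finset.card_pos.1 (by omega)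
  have hg' : ∀ p : E d, ∃ u : E d, p ∈ P → (∃ ε, Lin S p u ε) ∧ 0 < inner ℝ u (p - x) := by
    intro p
    by_cases hp : p ∈ P
    · obtain ⟨u, ε, h1, h2⟩ := hg p ((hmem p).1 hp)
      exact ⟨u, fun _ => ⟨⟨ε, h1⟩, h2⟩⟩
    · exact ⟨0, fun h => absurd h hp⟩
  choose u hu using hg'
  obtain ⟨hflux, δ, hδ, hgrow⟩ := hc A S x r L hA ρ₀ hρpos (hρ₀.2.trans hbr) P hmem hne u
    (fun p hp => (hu p hp).1) (fun p hp => (hu p hp).2)
  refine ⟨δ, hδ, fun ρ h1 h2 h3 => ?_⟩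
  obtain ⟨α, hα, hlen2⟩ := hgrow ρ h1 h2 (h3.trans hbr)
  have hD : 0 < ρ ^ 2 - ρ₀ ^ 2 := by nlinarith
  have h4 := gi_step P hne (fun p => inner ℝ (u p) (p - x)) α (ρ ^ 2 - ρ₀ ^ 2) (len S x ρ₀) hD
    hα hflux
  have h5 : (m : ℝ) ^ 2 * (ρ ^ 2 - ρ₀ ^ 2) ≤ (P.card : ℝ) ^ 2 * (ρ ^ 2 - ρ₀ ^ 2) := by
    refine mul_le_mul_of_nonneg_right ?_ hD.le
    exact pow_le_pow_left₀ (Nat.cast_nonneg _) (by exact_mod_cast hcard) 2
  have hs0 : 0 ≤ ∑ p ∈ P, α p := Finset.sum_nonneg fun p hp => (hα p hp).1.le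
  have h6 : (len S x ρ₀ + ∑ p ∈ P, α p) ^ 2 ≤ len S x ρ ^ 2 :=
    pow_le_pow_left₀ (add_nonneg (len_nonneg S x ρ₀) hs0) hlen2 2
  nlinarith

end H11ST
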