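import Pool.Agent.H11ST.St2
import Pool.Agent.Helper94.ST.GI

/-! The planar flux inequality for tripod points (MP_665203_co). -/

open MeasureTheory Metric Set Filter Topology Real
open scoped ENNReal NNReal

namespace H11ST

section Local
variable {V : Type*} [NormedAddCommGroup V] [InnerProductSpace ℝ V]

theorem dir_eq {u u' : V} (hu : ‖u‖ = 1) (hu' : ‖u'‖ = 1) {s t : ℝ} (hs : 0 < s)
    (h : s • u' = t • u) : u' = u ∨ u' = -u := by
  have h1 : s = |t| := by
    have h2 : ‖s • u'‖ = ‖t • u‖ := by rw [h]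
    rw [norm_smul, norm_smul, hu, hu', mul_one, mul_one, Real.norm_eq_abs, Real.norm_eq_abs,
      abs_of_pos hs] at h2
    exact h2
  rcases abs_cases t with ⟨h2, _⟩ | ⟨h2, _⟩
  · left
    have h3 : s • u' = s • u := by rw [h, h1, h2]
    exact smul_right_injective V hs.ne' h3
  · right
    have h3 : s • u' = s • (-u) := by rw [h, h1, h2, smul_neg, neg_smul, neg_neg]
    exact smul_right_injective V hs.ne' h3

theorem fdist_line {z u : V} (hu : ‖u‖ = 1) (s : ℝ) : dist (z + s • u) z = |s| := by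
  rw [dist_eq_norm]
  simp [norm_smul, hu]

theorem Lin.dir {S : Set V} {z w : V} {ε : ℝ} (h : Lin S z w ε) {u : V} (hu : ‖u‖ = 1) {δ : ℝ}
    (hδ : 0 < |δ|) (hδε : |δ| < ε) (hm : z + δ • u ∈ S) : u = w ∨ u = -w := by
  have h1 : z + δ • u ∈ S ∩ ball z ε := ⟨hm, by rw [mem_ball, fdist_line hu]; exact hδε⟩
  rw [h.eq] at h1
  obtain ⟨t, _, ht⟩ := h1
  have h2 : δ • u = t • w := add_left_cancel ht
  have h3 : |δ| • u = (if 0 ≤ δ then t else -t) • w := by
    split_ifs with h4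
    · rw [abs_of_nonneg h4, h2]
    · rw [abs_of_neg (not_le.1 h4), neg_smul, neg_smul, h2]
  exact dir_eq h.unit hu hδ h3

theorem Lin.of_dir {S : Set V} {z w : V} {ε : ℝ} (h : Lin S z w ε) {u : V}
    (hd : u = w ∨ u = -w) : Lin S z u ε := by
  rcases hd with rfl | rfl
  · exact h
  · exact h.neg

theorem Lin.mem {S : Set V} {z u : V} {ε : ℝ} (h : Lin S z u ε) {s : ℝ} (hs : |s| < ε) :
    z + s • u ∈ S := by
  have : z + s • u ∈ S ∩ ball z ε := by
    rw [h.eq]
    exact ⟨s, hs, rfl⟩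
  exact this.1

theorem Lin.z_mem {S : Set V} {z u : V} {ε : ℝ} (h : Lin S z u ε) : z ∈ S := by
  have := h.mem (s := 0) (by rw [abs_zero]; exact h.pos)
  simpa using this

theorem lin_dir {S : Set V} {z u u' : V} {ε ε' : ℝ} (h : Lin S z u ε) (h' : Lin S z u' ε') :
    u' = u ∨ u' = -u := by
  have h0 : 0 < min ε ε' / 2 := by
    have := lt_min h.pos h'.pos
    linarith
  have h1 : min ε ε' / 2 < ε := by
    have := min_le_left ε ε'
    linarith
  have h2 : min ε ε' / 2 < ε' := by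
    have := min_le_right ε ε'
    linarith
  refine h.dir (δ := min ε ε' / 2) h'.unit ?_ ?_ ?_
  · rw [abs_of_pos h0]; exact h0
  · rw [abs_of_pos h0]; exact h1
  · exact h'.mem (by rw [abs_of_pos h0]; exact h2)

/-- a line point is not a tripod point -/
theorem lin_not_tri {S : Set V} {z u : V} {v : Fin 3 → V} {ε ε' : ℝ} (h : Lin S z u ε)
    (T : Tri S z v ε') : False := by
  have h0 : 0 < min ε ε' / 2 := by
    have := lt_min h.pos T.pos
    linarith
  have h1 : min ε ε' / 2 < ε := by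
    have := min_le_left ε ε'
    linarith
  have h2 : min ε ε' / 2 < ε' := by
    have := min_le_right ε ε'
    linarith
  have hd : ∀ i, v i = u ∨ v i = -u := by
    intro i
    refine h.dir (δ := min ε ε' / 2) (T.norm i) ?_ ?_ (T.mem h0.le h2)
    · rw [abs_of_pos h0]; exact h0
    · rw [abs_of_pos h0]; exact h1
  have huu : inner ℝ u u = (1 : ℝ) := by
    rw [real_inner_self_eq_norm_sq, h.unit]
    norm_num
  have h3 := T.ang 0 1 (by decide)
  rcases hd 0 with e0 | e0 <;> rcases hd 1 with e1 | e1 <;> rw [e0, e1] at h3 <;>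
    simp only [inner_neg_left, inner_neg_right, huu] at h3 <;> norm_num at h3

/-- following a line -/
theorem follow {S : Set V} (hS : IsClosed S) {y u : V} {ε₀ s₁ : ℝ} (hu : ‖u‖ = 1) (hε₀ : 0 < ε₀)
    (hs₁ : 0 < s₁) (hstart : ∀ s, 0 < s → s < ε₀ → ∃ ε, Lin S (y + s • u) u ε)
    (hreg : ∀ s, 0 < s → s ≤ s₁ → y + s • u ∈ S → ∃ w ε, Lin S (y + s • u) w ε) :
    ∀ s, 0 < s → s ≤ s₁ → ∃ ε, Lin S (y + s • u) u ε := by
  set T : Set ℝ := {s | 0 < s ∧ s ≤ s₁ ∧ ∀ s', 0 < s' → s' ≤ s → ∃ ε, Lin S (y + s' • u) u ε}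
    with hT
  have hT0 : min (ε₀ / 2) s₁ ∈ T := by
    refine ⟨lt_min (by linarith) hs₁, min_le_right _ _, fun s' h1 h2 => hstart s' h1 ?_⟩
    have := min_le_left (ε₀ / 2) s₁
    linarith
  have hTb : BddAbove T := ⟨s₁, fun s hs => hs.2.1⟩
  set σ := sSup T with hσ
  have hσ0 : 0 < σ := lt_of_lt_of_le hT0.1 (le_csSup hTb hT0)
  have hσ1 : σ ≤ s₁ := csSup_le ⟨_, hT0⟩ fun s hs => hs.2.1
  have hlow : ∀ s', 0 < s' → s' < σ → ∃ ε, Lin S (y + s' • u) u ε := by
    intro s' h1 h2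
    obtain ⟨t, ht, hst⟩ := exists_lt_of_lt_csSup ⟨_, hT0⟩ h2
    exact ht.2.2 s' h1 hst.le
  have hq : y + σ • u ∈ S := by
    have ht : Tendsto (fun s : ℝ => y + s • u) (𝓝[<] σ) (𝓝 (y + σ • u)) := by
      refine Tendsto.mono_left ?_ nhdsWithin_le_nhds
      exact Continuous.tendsto (by fun_prop) σ
    refine hS.mem_of_tendsto ht ?_
    filter_upwards [Ioo_mem_nhdsLT hσ0] with s hs
    obtain ⟨ε, h⟩ := hlow s hs.1 hs.2
    exact h.z_mem
  obtain ⟨w, ε, hw⟩ := hreg σ hσ0 hσ1 hq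
  have hL : Lin S (y + σ • u) u ε := by
    have h0 : 0 < min ε σ / 2 := by
      have := lt_min hw.pos hσ0
      linarith
    have h1 : min ε σ / 2 < ε := by
      have := min_le_left ε σ
      linarith [hw.pos]
    have h2 : min ε σ / 2 < σ := by
      have := min_le_right ε σ
      linarith
    refine hw.of_dir (hw.dir (δ := -(min ε σ / 2)) hu ?_ ?_ ?_)
    · rw [abs_neg, abs_of_pos h0]; exact h0
    · rw [abs_neg, abs_of_pos h0]; exact h1
    · obtain ⟨ε', h⟩ := hlow (σ - min ε σ / 2) (by linarith) (by linarith)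
      have h3 := h.z_mem
      have e1 : y + σ • u + (-(min ε σ / 2)) • u = y + (σ - min ε σ / 2) • u := by
        rw [sub_smul, neg_smul]
        abel
      rw [e1]
      exact h3
  have hσT : ∀ s', 0 < s' → s' ≤ σ → ∃ ε, Lin S (y + s' • u) u ε := by
    intro s' h1 h2
    rcases h2.eq_or_lt with h3 | h3
    · rw [h3]
      exact ⟨ε, hL⟩
    · exact hlow s' h1 h3
  rcases hσ1.eq_or_lt with h3 | h3
  · rw [← h3]
    exact hσT
  · exfalso
    have hτ : min (σ + ε / 2) s₁ ∈ T := by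
      refine ⟨lt_min (by linarith [hL.pos]) hs₁, min_le_right _ _, fun s' h1 h2 => ?_⟩
      rcases le_or_gt s' σ with h4 | h4
      · exact hσT s' h1 h4
      · have h5 := min_le_left (σ + ε / 2) s₁
        have h6 : |s' - σ| + (ε / 2) ≤ ε := by
          rw [abs_of_pos (by linarith)]
          linarith
        have h7 := hL.mono (s := s' - σ) (η := ε / 2) (by linarith [hL.pos]) h6
        have e1 : y + σ • u + (s' - σ) • u = y + s' • u := by
          rw [sub_smul]
          abel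
        rw [e1] at h7
        exact ⟨_, h7⟩
    have h5 := le_csSup hTb hτ
    have h6 : σ < min (σ + ε / 2) s₁ := lt_min (by linarith [hL.pos]) h3
    linarith

/-- there are only finitely many tripod points in a smaller closed ball -/
theorem tri_finite [ProperSpace V] {S : Set V} (hS : IsClosed S) {x : V} {r b : ℝ} (hb : b < r)
    (hreg : ∀ z ∈ S ∩ ball x r, (∃ u ε, Lin S z u ε) ∨ ∃ u ε, Tri S z u ε) :
    {z ∈ S ∩ closedBall x b | ∃ u ε, Tri S z u ε}.Finite := by
  have hK : IsCompact (S ∩ closedBall x b) := (isCompact_closedBall x b).inter_left hS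
  refine fin_of_loc hK (fun z hz => hz.1) fun z hz => ?_
  have hz' : z ∈ S ∩ ball x r := ⟨hz.1, closedBall_subset_ball hb hz.2⟩
  rcases hreg z hz' with ⟨u, ε, hL⟩ | ⟨u, ε, T⟩
  · refine ⟨ε, hL.pos, ?_⟩
    refine Set.Finite.subset Set.finite_empty ?_
    rintro v ⟨⟨⟨hvS, -⟩, v', ε', hT⟩, hvb⟩
    have h1 : v ∈ S ∩ ball z ε := ⟨hvS, hvb⟩
    rw [hL.eq] at h1
    obtain ⟨s, hs, rfl⟩ := h1
    have h2 : Lin S (z + s • u) u (ε - |s|) := hL.mono (by linarith) (by linarith)
    exact lin_not_tri h2 hT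
  · refine ⟨ε, T.pos, ?_⟩
    refine Set.Finite.subset (Set.finite_singleton z) ?_
    rintro v ⟨⟨⟨hvS, -⟩, v', ε', hT⟩, hvb⟩
    have h1 : v ∈ S ∩ ball z ε := ⟨hvS, hvb⟩
    rw [T.eq] at h1
    obtain ⟨i, s, hs0, hs1, rfl⟩ := h1
    rcases hs0.eq_or_lt with h0 | h0
    · rw [mem_singleton_iff, ← h0]
      simp
    · exact absurd hT fun hT => lin_not_tri (T.lin i h0 hs1) hT

/-- a line meets a sphere in at most two points -/
theorem line_sphere_finite {x z u : V} (hu : ‖u‖ = 1) (a : ℝ) :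
    {v : V | ∃ s : ℝ, v = z + s • u ∧ ‖v - x‖ = a}.Finite := by
  by_cases hex : ∃ s : ℝ, ‖z + s • u - x‖ = a
  · obtain ⟨s₀, h0⟩ := hex
    set c : ℝ := inner ℝ u (z - x) with hc
    refine Set.Finite.subset ((Set.finite_singleton (z + s₀ • u)).union
      (Set.finite_singleton (z + (-2 * c - s₀) • u))) ?_
    rintro v ⟨s, rfl, hs⟩
    have h1 : ‖z + s • u - x‖ ^ 2 = ‖z - x‖ ^ 2 + 2 * s * c + s ^ 2 := norm_line_sq hu s
    have h2 : ‖z + s₀ • u - x‖ ^ 2 = ‖z - x‖ ^ 2 + 2 * s₀ * c + s₀ ^ 2 := norm_line_sq hu s₀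
    rw [hs] at h1
    rw [h0] at h2
    have h3 : (s - s₀) * (s + s₀ + 2 * c) = 0 := by linarith
    rcases mul_eq_zero.1 h3 with h4 | h4
    · left
      have : s = s₀ := by linarith
      rw [this]
      rfl
    · right
      have : s = -2 * c - s₀ := by linarith
      rw [this]
      rfl
  · refine Set.Finite.subset Set.finite_empty ?_
    rintro v ⟨s, rfl, hs⟩
    exact hex ⟨s, hs⟩

/-- the spheres in the ball meet the set in finitely many points -/
theorem sphere_finite [ProperSpace V] {S : Set V} (hS : IsClosed S) {x : V} {r a : ℝ} (ha : a < r)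
    (hreg : ∀ z ∈ S ∩ ball x r, (∃ u ε, Lin S z u ε) ∨ ∃ u ε, Tri S z u ε) :
    (S ∩ sphere x a).Finite := by
  have hK : IsCompact (S ∩ sphere x a) := (isCompact_sphere x a).inter_left hS
  refine fin_of_loc hK subset_rfl fun z hz => ?_
  have hz' : z ∈ S ∩ ball x r := ⟨hz.1, by rw [mem_ball, mem_sphere.1 hz.2]; exact ha⟩
  rcases hreg z hz' with ⟨u, ε, hL⟩ | ⟨u, ε, T⟩
  · refine ⟨ε, hL.pos, (line_sphere_finite (x := x) (z := z) hL.unit a).subset ?_⟩
    rintro v ⟨⟨hvS, hvs⟩, hvb⟩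
    have h1 : v ∈ S ∩ ball z ε := ⟨hvS, hvb⟩
    rw [hL.eq] at h1
    obtain ⟨s, hs, hv⟩ := h1
    exact ⟨s, hv, by rw [← dist_eq_norm]; exact hvs⟩
  · refine ⟨ε, T.pos, (Set.finite_iUnion fun i : Fin 3 =>
      line_sphere_finite (x := x) (z := z) (T.norm i) a).subset ?_⟩
    rintro v ⟨⟨hvS, hvs⟩, hvb⟩
    have h1 : v ∈ S ∩ ball z ε := ⟨hvS, hvb⟩
    rw [T.eq] at h1
    obtain ⟨i, s, hs0, hs1, hv⟩ := h1
    rw [mem_iUnion]
    exact ⟨i, s, hv, by rw [← dist_eq_norm]; exact hvs⟩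

end Local

theorem tri_pos (t₀ t₁ : ℝ) :
    t₀ ^ 2 + t₀ * t₁ + t₁ ^ 2 ≤ (max t₀ 0 + max t₁ 0 + max (-(t₀ + t₁)) 0) ^ 2 := by
  rcases le_total t₀ 0 with h0 | h0 <;> rcases le_total t₁ 0 with h1 | h1 <;>
    rcases le_total (-(t₀ + t₁)) 0 with h2 | h2 <;>
    simp only [max_eq_left, max_eq_right, h0, h1, h2] <;> nlinarith

/-- three unit vectors of the plane with pairwise angle `2π/3` -/
theorem plane_pos {u : Fin 3 → E2} (hn : ∀ i, ‖u i‖ = 1)
    (ha : ∀ i j, i ≠ j → inner ℝ (u i) (u j) = -(1 / 2 : ℝ)) (v : E2) :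
    √3 / 2 * ‖v‖ ≤ ∑ i, max (inner ℝ (u i) v) 0 := by
  have hsum : u 0 + u 1 + u 2 = 0 := by
    rw [← norm_eq_zero, ← sq_eq_zero_iff, ← real_inner_self_eq_norm_sq]
    simp only [inner_add_left, inner_add_right, real_inner_self_eq_norm_sq, hn,
      ha 0 1 (by decide), ha 0 2 (by decide), ha 1 0 (by decide), ha 1 2 (by decide),
      ha 2 0 (by decide), ha 2 1 (by decide)]
    norm_num
  have h2 : inner ℝ (u 2) v = -(inner ℝ (u 0) v + inner ℝ (u 1) v : ℝ) := by
    have h3 : inner ℝ (u 0 + u 1 + u 2) v = (0 : ℝ) := by rw [hsum, inner_zero_left]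
    rw [inner_add_left, inner_add_left] at h3
    linarith
  rw [Fin.sum_univ_three, h2]
  set t₀ : ℝ := inner ℝ (u 0) v with ht0
  set t₁ : ℝ := inner ℝ (u 1) v with ht1
  have hv : 3 / 4 * ‖v‖ ^ 2 = t₀ ^ 2 + t₀ * t₁ + t₁ ^ 2 := by
    have n0 : (u 0) 0 ^ 2 + (u 0) 1 ^ 2 = 1 := by
      have := EuclideanSpace.norm_sq_eq (u 0)
      rw [hn 0] at this
      simpa [Fin.sum_univ_two] using this.symm
    have n1 : (u 1) 0 ^ 2 + (u 1) 1 ^ 2 = 1 := by
      have := EuclideanSpace.norm_sq_eq (u 1)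
      rw [hn 1] at this
      simpa [Fin.sum_univ_two] using this.symm
    have nv : ‖v‖ ^ 2 = v 0 ^ 2 + v 1 ^ 2 := by
      have := EuclideanSpace.norm_sq_eq v
      simpa [Fin.sum_univ_two] using this
    have i01 : (u 0) 0 * (u 1) 0 + (u 0) 1 * (u 1) 1 = -(1 / 2) := by
      have := ha 0 1 (by decide)
      rw [PiLp.inner_apply, Fin.sum_univ_two] at this
      simp only [RCLike.inner_apply, conj_trivial] at this
      linarith
    have e0 : t₀ = (u 0) 0 * v 0 + (u 0) 1 * v 1 := by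
      rw [ht0, PiLp.inner_apply, Fin.sum_univ_two]
      simp only [RCLike.inner_apply, conj_trivial]
      ring
    have e1 : t₁ = (u 1) 0 * v 0 + (u 1) 1 * v 1 := by
      rw [ht1, PiLp.inner_apply, Fin.sum_univ_two]
      simp only [RCLike.inner_apply, conj_trivial]
      ring
    rw [nv, e0, e1]
    generalize (u 0) 0 = a at *
    generalize (u 0) 1 = b at *
    generalize (u 1) 0 = c at *
    generalize (u 1) 1 = d at *
    generalize v 0 = p at *
    generalize v 1 = q at *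
    have hdet : (a * d - b * c) ^ 2 = 3 / 4 := by
      have : (a * d - b * c) ^ 2 = (a ^ 2 + b ^ 2) * (c ^ 2 + d ^ 2) - (a * c + b * d) ^ 2 := by
        ring
      rw [this, n0, n1, i01]
      norm_num
    have key : (a * d - b * c) ^ 2 * (p ^ 2 + q ^ 2) =
        (a * p + b * q) ^ 2 * (c ^ 2 + d ^ 2) + (c * p + d * q) ^ 2 * (a ^ 2 + b ^ 2)
          - 2 * (a * p + b * q) * (c * p + d * q) * (a * c + b * d) := by ring
    rw [hdet, n0, n1, i01] at key
    linarith
  have h3 := tri_pos t₀ t₁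
  have hm : 0 ≤ max t₀ 0 + max t₁ 0 + max (-(t₀ + t₁)) 0 :=
    add_nonneg (add_nonneg (le_max_right _ _) (le_max_right _ _)) (le_max_right _ _)
  refine le_of_sq_le_sq ?_ hm |> fun h => h
  rw [mul_pow, div_pow, Real.sq_sqrt (by norm_num : (0 : ℝ) ≤ 3)]
  linarith

/-- right continuity of the length -/
theorem len_right {S : Set E2} (hS : IsClosed S) {x : E2} {r a : ℝ} (har : a < r)
    (hfin : μH[1] (S ∩ ball x r) ≠ ∞) (hsph : (S ∩ sphere x a).Finite) :
    Tendsto (fun ρ => len S x ρ) (𝓝[>] a) (𝓝 (len S x a)) := by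
  have h1 : Tendsto ((μH[1] : Measure E2) ∘ fun ρ => S ∩ ball x ρ) (𝓝[>] a)
      (𝓝 (μH[1] (⋂ ρ > a, S ∩ ball x ρ))) := by
    refine tendsto_measure_biInter_gt (fun ρ _ =>
      (hS.measurableSet.inter measurableSet_ball).nullMeasurableSet) ?_ ⟨r, har, hfin⟩
    intro i j _ hij
    exact inter_subset_inter_right _ (ball_subset_ball hij)
  have h2 : (⋂ ρ > a, S ∩ ball x ρ) = (S ∩ ball x a) ∪ (S ∩ sphere x a) := by
    ext z
    simp only [mem_iInter, mem_inter_iff, mem_union, mem_ball, mem_sphere]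
    constructor
    · intro h
      have hzS : z ∈ S := (h (a + 1) (by linarith)).1
      have hz : dist z x ≤ a := le_of_forall_gt_imp_ge_of_dense fun ρ hρ => (h ρ hρ).2.le
      rcases hz.lt_or_eq with h3 | h3
      · exact Or.inl ⟨hzS, h3⟩
      · exact Or.inr ⟨hzS, h3⟩
    · rintro (⟨h3, h4⟩ | ⟨h3, h4⟩) ρ hρ
      · exact ⟨h3, lt_trans h4 hρ⟩
      · exact ⟨h3, by rw [h4]; exact hρ⟩
  have : NullSingletonClass (μH[1] : Measure E2) := Measure.nullSingletonClass_hausdorff E2 one_pos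
  have h3 : μH[1] (⋂ ρ > a, S ∩ ball x ρ) = μH[1] (S ∩ ball x a) := by
    rw [h2]
    refine le_antisymm ?_ (measure_mono subset_union_left)
    refine (measure_union_le _ _).trans ?_
    rw [hsph.measure_zero, add_zero]
  rw [h3] at h1
  have hne : μH[1] (S ∩ ball x a) ≠ ∞ :=
    ne_top_of_le_ne_top hfin (measure_mono (inter_subset_inter_right _ (ball_subset_ball har.le)))
  exact (ENNReal.tendsto_toReal hne).comp h1

theorem ev_finite {F : Set ℝ} (hF : F.Finite) (a : ℝ) :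
    ∀ᶠ ρ in 𝓝[>] a, ∀ f ∈ F, ¬ (a < f ∧ f ≤ ρ) := by
  rw [Filter.eventually_all_finite hF]
  intro f _
  rcases le_or_gt f a with h | h
  · exact Eventually.of_forall fun ρ hρ => absurd hρ.1 (not_lt.2 h)
  · filter_upwards [Ioo_mem_nhdsGT h] with ρ hρ hf
    exact absurd hf.2 (not_le.2 hρ.2)

theorem flux (hc : ST_CORE 2) : ST_FLUX := by
  intro A S x r L hA hreg a ha har Y hY hsep
  set b := (a + r) / 2 with hb
  have hab : a < b := by rw [hb]; linarith
  have hbr : b < r := by rw [hb]; linarith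
  have hTfin := tri_finite L.hS hbr hreg
  have hBfin := fbad 2 A S x r L hreg b hbr
  have hTfin' := hTfin.image fun z => dist z x
  have key : ∀ᶠ ρ in 𝓝[>] a, √3 / 2 * ∑ y ∈ Y, dist y x ≤ len S x ρ := by
    filter_upwards [Ioo_mem_nhdsGT hab, ev_finite hBfin a, ev_finite hTfin' a] with ρ hρ h1 h2
    have hρ0 : 0 < ρ := ha.trans hρ.1
    have hρr : ρ < r := hρ.2.trans hbr
    have hg : ∀ z ∈ S ∩ sphere x ρ, Good S x z := by
      intro z hz
      by_contra hcon
      exact h1 ρ ⟨hρ0, hρ.2.le, z, hz, hcon⟩ ⟨hρ.1, le_rfl⟩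
    have hnotri : ∀ z, (∃ u ε, Tri S z u ε) → dist z x ≤ ρ → dist z x ≤ a := by
      intro z hz hzρ
      by_contra hcon
      push Not at hcon
      have hzS : z ∈ S := by
        obtain ⟨u, ε, T⟩ := hz
        exact T.y_mem
      exact h2 (dist z x) ⟨z, ⟨⟨hzS, by rw [mem_closedBall]; linarith [hρ.2]⟩, hz⟩, rfl⟩
        ⟨hcon, hzρ⟩
    -- the tripod data
    have hU' : ∀ y : E2, ∃ u : Fin 3 → E2, y ∈ Y → ∃ ε, Tri S y u ε := by
      intro y
      by_cases hy : y ∈ Y
      · obtain ⟨u, ε, T⟩ := (hY y hy).2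
        exact ⟨u, fun _ => ⟨ε, T⟩⟩
      · exact ⟨fun _ => 0, fun h => absurd h hy⟩
    choose U hU using hU'
    -- following the arms
    have hfol : ∀ (y : E2) (i : Fin 3), ∃ s : ℝ, y ∈ Y → 0 < (inner ℝ (U y i) (y - x) : ℝ) →
        0 < s ∧ dist (y + s • U y i) x = ρ ∧
          ∀ s', 0 < s' → s' ≤ s → ∃ ε, Lin S (y + s' • U y i) (U y i) ε := by
      intro y i
      by_cases hy : y ∈ Y ∧ 0 < (inner ℝ (U y i) (y - x) : ℝ)
      swap
      · exact ⟨0, fun h3 h4 => absurd ⟨h3, h4⟩ hy⟩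
      obtain ⟨hyY, hcpos⟩ := hy
      obtain ⟨ε, T⟩ := hU y hyY
      set u := U y i with hu
      set c : ℝ := inner ℝ u (y - x) with hcdef
      have hun : ‖u‖ = 1 := T.norm i
      have hD : dist y x ≤ a := by
        have := (hY y hyY).1
        rwa [mem_closedBall] at this
      have hD0 : 0 ≤ dist y x := dist_nonneg
      have hnorm : ‖y - x‖ = dist y x := (dist_eq_norm y x).symm
      have hlt : dist y x ^ 2 < ρ ^ 2 := by
        have := hρ.1
        nlinarith
      set s₁ := -c + √(c ^ 2 + (ρ ^ 2 - dist y x ^ 2)) with hs₁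
      have hrad : 0 < c ^ 2 + (ρ ^ 2 - dist y x ^ 2) := by nlinarith [sq_nonneg c]
      have hs₁pos : 0 < s₁ := by
        have : c < √(c ^ 2 + (ρ ^ 2 - dist y x ^ 2)) := by
          refine Real.lt_sqrt_of_sq_lt ?_
          linarith
        linarith
      have hs₁eq : s₁ ^ 2 + 2 * s₁ * c = ρ ^ 2 - dist y x ^ 2 := by
        have h3 := Real.sq_sqrt hrad.le
        have h4 : √(c ^ 2 + (ρ ^ 2 - dist y x ^ 2)) = s₁ + c := by rw [hs₁]; ring
        rw [h4] at h3
        nlinarith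
      have hdist : ∀ s, dist (y + s • u) x ^ 2 = dist y x ^ 2 + 2 * s * c + s ^ 2 := by
        intro s
        rw [dist_eq_norm, norm_line_sq hun, hnorm]
      refine ⟨s₁, fun _ _ => ⟨hs₁pos, ?_, ?_⟩⟩
      · have h3 := hdist s₁
        have h4 : dist (y + s₁ • u) x ^ 2 = ρ ^ 2 := by rw [h3]; linarith
        exact (pow_left_inj₀ dist_nonneg hρ0.le two_ne_zero).1 h4
      · refine follow L.hS hun T.pos hs₁pos (fun s h3 h4 => ⟨_, T.lin i h3 h4⟩) ?_
        intro s hs0 hs1 hmem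
        have hd := hdist s
        have hdρ : dist (y + s • u) x ≤ ρ := by
          have h3 : dist (y + s • u) x ^ 2 ≤ ρ ^ 2 := by
            rw [hd]
            nlinarith
          exact le_of_sq_le_sq h3 hρ0.le
        rcases hreg (y + s • u) ⟨hmem, by rw [mem_ball]; linarith⟩ with h3 | h3
        · exact h3
        · exfalso
          have h4 := hnotri _ h3 hdρ
          have h5 : y + s • u ≠ y := by
            intro h6
            have h7 := fdist_line (z := y) hun s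
            rw [h6, dist_self, abs_of_pos hs0] at h7
            linarith
          have h6 := hsep y hyY (y + s • u) (by rw [mem_closedBall]; exact h4) h3 h5
          rw [dist_comm y (y + s • u), fdist_line hun, sq_abs] at h6
          have h7 : dist (y + s • u) x ^ 2 ≤ a ^ 2 := pow_le_pow_left₀ dist_nonneg h4 2
          rw [hd] at h7
          nlinarith [mul_pos hs0 hcpos]
    choose s hs using hfol
    have hfinP : (S ∩ sphere x ρ).Finite := finp 2 S x ρ L.hS hg
    set P := hfinP.toFinset with hP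
    have hmem : ∀ p, p ∈ P ↔ p ∈ S ∩ sphere x ρ := fun p => by rw [hP, Set.Finite.mem_toFinset]
    have hw' : ∀ p : E2, ∃ w : E2, p ∈ P → (∃ ε, Lin S p w ε) ∧ 0 < (inner ℝ w (p - x) : ℝ) := by
      intro p
      by_cases hp : p ∈ P
      · obtain ⟨w, ε, h3, h4⟩ := hg p ((hmem p).1 hp)
        exact ⟨w, fun _ => ⟨⟨ε, h3⟩, h4⟩⟩
      · exact ⟨0, fun h => absurd h hp⟩
    choose w hw using hw'
    classical
    set I := (Y ×ˢ (Finset.univ : Finset (Fin 3))).filter
      (fun q => 0 < (inner ℝ (U q.1 q.2) (q.1 - x) : ℝ)) with hI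
    set e : E2 × Fin 3 → E2 := fun q => q.1 + s q.1 q.2 • U q.1 q.2 with he
    have hIm : ∀ q ∈ I, q.1 ∈ Y ∧ 0 < (inner ℝ (U q.1 q.2) (q.1 - x) : ℝ) := by
      intro q hq
      rw [hI, Finset.mem_filter, Finset.mem_product] at hq
      exact ⟨hq.1.1, hq.2⟩
    have hunit : ∀ y ∈ Y, ∀ i, ‖U y i‖ = 1 := by
      intro y hy i
      obtain ⟨ε, T⟩ := hU y hy
      exact T.norm i
    have heP : ∀ q ∈ I, e q ∈ P := by
      intro q hq
      obtain ⟨h3, h4⟩ := hIm q hq
      obtain ⟨h5, h6, h7⟩ := hs q.1 q.2 h3 h4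
      obtain ⟨ε, h8⟩ := h7 _ h5 le_rfl
      rw [hmem]
      exact ⟨h8.z_mem, h6⟩
    have hinner : ∀ q ∈ I, (inner ℝ (U q.1 q.2) (q.1 - x) : ℝ) ≤
        inner ℝ (U q.1 q.2) (e q - x) := by
      intro q hq
      obtain ⟨h3, h4⟩ := hIm q hq
      obtain ⟨h5, h6, h7⟩ := hs q.1 q.2 h3 h4
      have h8 : (inner ℝ (U q.1 q.2) (q.1 + s q.1 q.2 • U q.1 q.2 - x) : ℝ) =
        inner ℝ (U q.1 q.2) (q.1 - x) + s q.1 q.2 := inner_line (hunit _ h3 _) _
      show (inner ℝ (U q.1 q.2) (q.1 - x) : ℝ) ≤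
        inner ℝ (U q.1 q.2) (q.1 + s q.1 q.2 • U q.1 q.2 - x)
      rw [h8]
      linarith
    have hwe : ∀ q ∈ I, w (e q) = U q.1 q.2 := by
      intro q hq
      obtain ⟨h3, h4⟩ := hIm q hq
      obtain ⟨h5, h6, h7⟩ := hs q.1 q.2 h3 h4
      obtain ⟨ε, h8⟩ := h7 _ h5 le_rfl
      obtain ⟨⟨ε', h9⟩, h10⟩ := hw (e q) (heP q hq)
      rcases lin_dir h8 h9 with h11 | h11
      · exact h11
      · exfalso
        rw [h11, inner_neg_left] at h10
        have h12 := hinner q hq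
        linarith
    have hinj : Set.InjOn e (I : Set (E2 × Fin 3)) := by
      intro q hq q' hq' heq
      rw [Finset.mem_coe] at hq hq'
      obtain ⟨h3, h4⟩ := hIm q hq
      obtain ⟨h5, h6, h7⟩ := hs q.1 q.2 h3 h4
      obtain ⟨h3', h4'⟩ := hIm q' hq'
      obtain ⟨h5', h6', h7'⟩ := hs q'.1 q'.2 h3' h4'
      have hUU : U q.1 q.2 = U q'.1 q'.2 := by
        rw [← hwe q hq, ← hwe q' hq', heq]
      have heq' : q.1 + s q.1 q.2 • U q.1 q.2 = q'.1 + s q'.1 q'.2 • U q'.1 q'.2 := heq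
      rw [← hUU] at heq'
      obtain ⟨ε, T⟩ := hU q.1 h3
      obtain ⟨ε', T'⟩ := hU q'.1 h3'
      have hy1 : q'.1 = q.1 + (s q.1 q.2 - s q'.1 q'.2) • U q.1 q.2 := by
        rw [sub_smul, ← add_sub_assoc, heq']
        abel
      have hy2 : q.1 = q'.1 + (s q'.1 q'.2 - s q.1 q.2) • U q'.1 q'.2 := by
        rw [← hUU, sub_smul, ← add_sub_assoc, ← heq']
        abel
      rcases lt_trichotomy (s q.1 q.2) (s q'.1 q'.2) with h8 | h8 | h8
      · exfalso
        obtain ⟨ε'', h9⟩ := h7' (s q'.1 q'.2 - s q.1 q.2) (by linarith) (by linarith)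
        rw [← hy2] at h9
        exact lin_not_tri h9 T
      · have h9 : q'.1 = q.1 := by
          rw [hy1, h8]
          simp
        have h10 : q.2 = q'.2 := by
          by_contra hne
          have h11 := T.ang q.2 q'.2 hne
          rw [h9] at hUU
          rw [← hUU, real_inner_self_eq_norm_sq, T.norm] at h11
          norm_num at h11
        exact Prod.ext h9.symm h10
      · exfalso
        obtain ⟨ε'', h9⟩ := h7 (s q.1 q.2 - s q'.1 q'.2) (by linarith) (by linarith)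
        rw [← hy1] at h9
        exact lin_not_tri h9 T'
    -- the sum over the outward arms
    have hsumI : √3 / 2 * ∑ y ∈ Y, dist y x ≤
        ∑ q ∈ I, (inner ℝ (U q.1 q.2) (q.1 - x) : ℝ) := by
      have h3 : ∑ q ∈ I, (inner ℝ (U q.1 q.2) (q.1 - x) : ℝ) =
          ∑ y ∈ Y, ∑ i : Fin 3, max (inner ℝ (U y i) (y - x) : ℝ) 0 := by
        rw [hI, Finset.sum_filter, Finset.sum_product]
        refine Finset.sum_congr rfl fun y _ => Finset.sum_congr rfl fun i _ => ?_
        split_ifs with h4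
        · rw [max_eq_left h4.le]
        · rw [max_eq_right (not_lt.1 h4)]
      rw [h3, Finset.mul_sum]
      refine Finset.sum_le_sum fun y hy => ?_
      obtain ⟨ε, T⟩ := hU y hy
      rw [dist_eq_norm]
      exact plane_pos T.norm T.ang (y - x)
    refine hsumI.trans ?_
    by_cases hne : P.Nonempty
    · obtain ⟨hflux, -⟩ := hc A S x r L hA ρ hρ0 hρr P hmem hne w
        (fun p hp => (hw p hp).1) (fun p hp => (hw p hp).2)
      refine le_trans ?_ hflux
      have h3 : ∑ q ∈ I, (inner ℝ (U q.1 q.2) (q.1 - x) : ℝ) ≤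
          ∑ q ∈ I, (inner ℝ (w (e q)) (e q - x) : ℝ) := by
        refine Finset.sum_le_sum fun q hq => ?_
        rw [hwe q hq]
        exact hinner q hq
      refine h3.trans ?_
      rw [← Finset.sum_image (f := fun p => (inner ℝ (w p) (p - x) : ℝ)) hinj]
      refine Finset.sum_le_sum_of_subset_of_nonneg ?_ fun p hp _ => (hw p hp).2.le
      intro p hp
      rw [Finset.mem_image] at hp
      obtain ⟨q, hq, rfl⟩ := hp
      exact heP q hq
    · have hIe : I = ∅ := by
        rw [Finset.eq_empty_iff_forall_notMem]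
        intro q hq
        exact hne ⟨e q, heP q hq⟩
      rw [hIe, Finset.sum_empty]
      exact len_nonneg S x ρ
  have hlim := len_right L.hS har L.fin (sphere_finite L.hS har hreg)
  exact ge_of_tendsto hlim key

end H11ST
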