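import Pool.Agent.Helper34.ST.Basic

/-!
# SW: switching sequences
-/

set_option autoImplicit false

namespace Pool.Agent.Helper34.ST

variable {ι : Type}

/-- chains of a given length -/
def SwCh (r : ι → ι → Prop) (j n : ℕ) (x y : ι) : Prop :=
  ∃ xs ws : ℕ → ι, xs 0 = x ∧ xs n = y ∧
    ∀ i, i < n → Pth r j (xs i) (ws i) ∧ Pth r j (xs (i + 1)) (ws i)

theorem sw_step {r : ι → ι → Prop} {j n : ℕ} {x b c : ι} (h : SwCh r j n x b)
    (hw : ∃ w, Pth r j b w ∧ Pth r j c w) : SwCh r j (n + 1) x c := by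
  obtain ⟨xs, ws, h0, hn, hi⟩ := h
  obtain ⟨w, hw1, hw2⟩ := hw
  refine ⟨fun i => if i ≤ n then xs i else c, fun i => if i < n then ws i else w, ?_, ?_, ?_⟩
  · show (if 0 ≤ n then xs 0 else c) = x
    rw [if_pos (Nat.zero_le n), h0]
  · show (if n + 1 ≤ n then xs (n + 1) else c) = c
    rw [if_neg (by omega)]
  · intro i hin
    show Pth r j (if i ≤ n then xs i else c) (if i < n then ws i else w) ∧
      Pth r j (if i + 1 ≤ n then xs (i + 1) else c) (if i < n then ws i else w)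
    rcases Nat.lt_or_ge i n with h | h
    · rw [if_pos h.le, if_pos h, if_pos (show i + 1 ≤ n from h)]
      exact hi i h
    · have e : i = n := by omega
      subst e
      rw [if_pos le_rfl, if_neg (lt_irrefl i), if_neg (show ¬ i + 1 ≤ i by omega), hn]
      exact ⟨hw1, hw2⟩

theorem sw_exists {r : ι → ι → Prop} {j : ℕ} {x y : ι} (h : Conn r j x y) :
    ∃ n, SwCh r j n x y := by
  unfold Conn at h
  induction h with
  | refl =>
    exact ⟨0, fun _ => x, fun _ => x, rfl, rfl, fun i hi => absurd hi (Nat.not_lt_zero i)⟩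
  | tail _ hbc ih =>
    obtain ⟨n, hn⟩ := ih
    exact ⟨n + 1, sw_step hn hbc⟩

theorem sw_mono {r : ι → ι → Prop} (hr : ∀ x, ∃ y, r x y) {j n m : ℕ} {x y : ι}
    (h : SwCh r j n x y) (hnm : n ≤ m) : SwCh r j m x y := by
  induction m, hnm using Nat.le_induction with
  | base => exact h
  | succ m _ ih =>
    obtain ⟨w, hw⟩ := exists_pth_out hr j y
    exact sw_step ih ⟨w, hw, hw⟩

theorem sw_unif [Fintype ι] {r : ι → ι → Prop} (hr : ∀ x, ∃ y, r x y) (j : ℕ) :
    ∃ N : ℕ, ∀ x y, Conn r j x y → SwCh r j N x y := by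
  classical
  have h : ∀ q : ι × ι, ∃ n : ℕ, Conn r j q.1 q.2 → SwCh r j n q.1 q.2 := by
    intro q
    by_cases hq : Conn r j q.1 q.2
    · obtain ⟨n, hn⟩ := sw_exists hq
      exact ⟨n, fun _ => hn⟩
    · exact ⟨0, fun h => absurd h hq⟩
  choose f hf using h
  refine ⟨Finset.univ.sup f, ?_⟩
  intro x y hxy
  exact sw_mono hr (hf (x, y) hxy) (Finset.le_sup (f := f) (Finset.mem_univ (x, y)))

theorem st_SW (hEXT : ST_EXT) : ST_SW := by
  classical
  intro ι _ r hout hin j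
  obtain ⟨N, hN⟩ := sw_unif hout j
  refine ⟨2 * N + 1, ?_⟩
  intro u v lo hu hv hc
  obtain ⟨xs, ws, hx0, hxN, hi⟩ := hN _ _ hc
  have hwalk : ∀ x w : ι, Pth r j x w → ∃ U : ℤ → ι, Dir r U ∧ U lo = x ∧ U (lo + j) = w := by
    intro x w hxw
    obtain ⟨p, hp0, hpj, hp⟩ := hxw
    obtain ⟨U, hU, _, hUp⟩ := hEXT ι r Set.univ
      (fun x _ => by obtain ⟨y, hy⟩ := hout x; exact ⟨y, Set.mem_univ _, hy⟩)
      (fun x _ => by obtain ⟨y, hy⟩ := hin x; exact ⟨y, Set.mem_univ _, hy⟩)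
      j p (fun _ _ => Set.mem_univ _) hp lo
    refine ⟨U, hU, ?_, ?_⟩
    · have h1 := hUp 0 (Nat.zero_le j)
      rw [Nat.cast_zero, add_zero, hp0] at h1
      exact h1
    · have h1 := hUp j le_rfl
      rw [hpj] at h1
      exact h1
  have hA : ∀ m : ℕ, ∃ U : ℤ → ι, Dir r U ∧ (m < N → U lo = xs m ∧ U (lo + j) = ws m) := by
    intro m
    by_cases hm : m < N
    · obtain ⟨U, h1, h2, h3⟩ := hwalk _ _ (hi m hm).1
      exact ⟨U, h1, fun _ => ⟨h2, h3⟩⟩
    · exact ⟨u, hu, fun h => absurd h hm⟩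
  have hB : ∀ m : ℕ, ∃ U : ℤ → ι, Dir r U ∧ (m < N → U lo = xs (m + 1) ∧ U (lo + j) = ws m) := by
    intro m
    by_cases hm : m < N
    · obtain ⟨U, h1, h2, h3⟩ := hwalk _ _ (hi m hm).2
      exact ⟨U, h1, fun _ => ⟨h2, h3⟩⟩
    · exact ⟨u, hu, fun h => absurd h hm⟩
  choose A hA1 hA2 using hA
  choose B hB1 hB2 using hB
  obtain ⟨U, hUdef⟩ : ∃ U : ℕ → ℤ → ι, ∀ i, U i = if i = 0 then u else
      if 2 * N + 1 ≤ i then v else if i % 2 = 1 then A (i / 2) else B (i / 2 - 1) :=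
    ⟨_, fun i => rfl⟩
  have hU0 : U 0 = u := by rw [hUdef, if_pos rfl]
  have hUR : U (2 * N + 1) = v := by rw [hUdef, if_neg (by omega), if_pos le_rfl]
  have hodd : ∀ m, m < N → U (2 * m + 1) = A m := by
    intro m hm
    rw [hUdef, if_neg (by omega), if_neg (by omega), if_pos (by omega)]
    congr 1
    omega
  have heven : ∀ m, m < N → U (2 * m + 2) = B m := by
    intro m hm
    rw [hUdef, if_neg (by omega), if_neg (by omega), if_neg (by omega)]
    congr 1
    omega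
  have hlo : ∀ m, m ≤ N → U (2 * m) lo = xs m := by
    intro m hm
    cases m with
    | zero => rw [Nat.mul_zero, hU0, hx0]
    | succ m =>
      have e : 2 * (m + 1) = 2 * m + 2 := by ring
      rw [e, heven m (by omega)]
      exact (hB2 m (by omega)).1
  refine ⟨U, ?_, hU0, ?_, ?_⟩
  · intro i
    rw [hUdef]
    split_ifs
    · exact hu
    · exact hv
    · exact hA1 _
    · exact hB1 _
  · intro t _ _
    rw [hUR]
  · intro i hiR
    refine ⟨?_, ?_⟩
    · rintro ⟨m, hm⟩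
      have e : i = 2 * m := by omega
      subst e
      rw [hlo m (by omega)]
      rcases Nat.lt_or_ge m N with h | h
      · rw [hodd m h]
        exact (hA2 m h).1
      · have e : m = N := by omega
        subst e
        rw [hUR, hxN]
    · rintro ⟨m, hm⟩
      subst hm
      have hm : m < N := by omega
      have e : 2 * m + 1 + 1 = 2 * m + 2 := by ring
      rw [e, hodd m hm, heven m hm, (hA2 m hm).2, (hB2 m hm).2]

end Pool.Agent.Helper34.ST
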