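import Pool.Agent.H11ST.Chain2
import Pool.Agent.H11ST.St3
open MeasureTheory Metric Set Filter Topology
open scoped ENNReal NNReal

/-!
Existence of minimal connected sets through a finite set (row G1 = ST_EX).

`tau R a F` is the least length of a tree of segments from `a` to the points of `F`, with
branching points in the set `R`, defined by recursion on the number of points.
-/

namespace H11ST
namespace EX
set_option linter.unusedSectionVars false

section tau
variable {V : Type*} [NormedAddCommGroup V] [InnerProductSpace ℝ V]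

open scoped Classical in
/-- least length of a tree from `a` to the points of `F`, branching in `R` -/
noncomputable def tau (R : Set V) (a : V) (F : Finset V) : ℝ :=
  if F.card ≤ 1 then ∑ f ∈ F, dist a f else
    sInf {L : ℝ | ∃ z ∈ R, ∃ P Q : Finset V, ∃ _ : P.card < F.card, ∃ _ : Q.card < F.card,
      Disjoint P Q ∧ P ∪ Q = F ∧ L = dist a z + tau R z P + tau R z Q}
termination_by F.card

open scoped Classical

/-- the values over which the infimum is taken -/
def vals (R : Set V) (a : V) (F : Finset V) : Set ℝ :=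
  {L : ℝ | ∃ z ∈ R, ∃ P Q : Finset V, P.card < F.card ∧ Q.card < F.card ∧
      Disjoint P Q ∧ P ∪ Q = F ∧ L = dist a z + tau R z P + tau R z Q}

theorem tau_small {R : Set V} {a : V} {F : Finset V} (h : F.card ≤ 1) :
    tau R a F = ∑ f ∈ F, dist a f := by
  rw [tau, if_pos h]

theorem tau_big {R : Set V} {a : V} {F : Finset V} (h : 1 < F.card) :
    tau R a F = sInf (vals R a F) := by
  rw [tau, if_neg (by omega)]
  congr 1
  ext L
  simp only [vals, mem_ofPred_eq, exists_prop]

theorem tau_empty {R : Set V} {a : V} : tau R a ∅ = 0 := by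
  rw [tau_small (by simp)]; simp

theorem tau_single {R : Set V} {a b : V} : tau R a {b} = dist a b := by
  rw [tau_small (by simp)]; simp

theorem tau_nonneg_aux (R : Set V) (n : ℕ) : ∀ (a : V) (F : Finset V), F.card ≤ n →
    0 ≤ tau R a F := by
  induction n with
  | zero =>
    intro a F hF
    rw [tau_small (by omega)]
    exact Finset.sum_nonneg fun f _ => dist_nonneg
  | succ n ih =>
    intro a F hF
    by_cases h : F.card ≤ 1
    · rw [tau_small h]
      exact Finset.sum_nonneg fun f _ => dist_nonneg
    · rw [tau_big (by omega)]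
      refine Real.sInf_nonneg ?_
      rintro L ⟨z, _, P, Q, hP, hQ, _, _, rfl⟩
      have h1 := ih z P (by omega)
      have h2 := ih z Q (by omega)
      have h3 : 0 ≤ dist a z := dist_nonneg
      linarith

theorem tau_nonneg (R : Set V) (a : V) (F : Finset V) : 0 ≤ tau R a F :=
  tau_nonneg_aux R F.card a F le_rfl

theorem vals_bdd (R : Set V) (a : V) (F : Finset V) : BddBelow (vals R a F) := by
  refine ⟨0, ?_⟩
  rintro L ⟨z, _, P, Q, hP, hQ, _, _, rfl⟩
  have h1 := tau_nonneg R z P
  have h2 := tau_nonneg R z Q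
  have h3 : 0 ≤ dist a z := dist_nonneg
  linarith

theorem card_lt {P Q : Finset V} (hd : Disjoint P Q) (hP : P.Nonempty) (hQ : Q.Nonempty) :
    P.card < (P ∪ Q).card ∧ Q.card < (P ∪ Q).card ∧ 1 < (P ∪ Q).card := by
  rw [Finset.card_union_of_disjoint hd]
  have h1 := hP.card_pos
  have h2 := hQ.card_pos
  omega

theorem tau_le {R : Set V} {a z : V} {P Q : Finset V} (hz : z ∈ R) (hd : Disjoint P Q)
    (hP : P.Nonempty) (hQ : Q.Nonempty) :
    tau R a (P ∪ Q) ≤ dist a z + tau R z P + tau R z Q := by
  obtain ⟨h1, h2, h3⟩ := card_lt hd hP hQ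
  rw [tau_big h3]
  exact csInf_le (vals_bdd R a _) ⟨z, hz, P, Q, h1, h2, hd, rfl, rfl⟩

theorem vals_nonempty {R : Set V} (hR : R.Nonempty) (a : V) {F : Finset V} (hF : 1 < F.card) :
    (vals R a F).Nonempty := by
  obtain ⟨z, hz⟩ := hR
  obtain ⟨x, hx⟩ := Finset.card_pos.1 (by omega : 0 < F.card)
  have h1 : (F.erase x).card < F.card := Finset.card_erase_lt_of_mem hx
  refine ⟨_, z, hz, {x}, F.erase x, by simpa using hF, h1, ?_, ?_, rfl⟩
  · simp
  · ext y
    simp only [Finset.mem_union, Finset.mem_singleton, Finset.mem_erase]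
    constructor
    · rintro (rfl | h)
      · exact hx
      · exact h.2
    · intro h
      by_cases hy : y = x
      · exact Or.inl hy
      · exact Or.inr ⟨hy, h⟩

theorem tau_lip {R : Set V} (hR : R.Nonempty) (a b : V) (F : Finset V) :
    tau R a F ≤ dist a b + tau R b F := by
  by_cases h : F.card ≤ 1
  · rw [tau_small h, tau_small h]
    rcases Finset.card_le_one_iff_subset_singleton.1 h with ⟨x, hx⟩
    rcases Finset.subset_singleton_iff.1 hx with rfl | rfl
    · simp
    · simpa using dist_triangle a b x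
  · rw [tau_big (F := F) (a := a) (by omega), tau_big (F := F) (a := b) (by omega)]
    have h1 : sInf (vals R a F) - dist a b ≤ sInf (vals R b F) := by
      refine le_csInf (vals_nonempty hR b (by omega)) ?_
      rintro L ⟨z, hz, P, Q, hP, hQ, hd, hu, rfl⟩
      have h2 : sInf (vals R a F) ≤ dist a z + tau R z P + tau R z Q :=
        csInf_le (vals_bdd R a _) ⟨z, hz, P, Q, hP, hQ, hd, hu, rfl⟩
      have h3 := dist_triangle a b z
      linarith
    linarith

theorem tau_cont {R : Set V} (hR : R.Nonempty) (F : Finset V) : Continuous fun a => tau R a F := by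
  have h : LipschitzWith 1 fun a => tau R a F := by
    refine LipschitzWith.of_le_add fun x y => ?_
    have := tau_lip hR x y F
    linarith
  exact h.continuous

theorem tau_attain {R : Set V} (hRc : IsCompact R) (hR : R.Nonempty) (a : V) {F : Finset V}
    (hF : 1 < F.card) : ∃ z ∈ R, ∃ P Q : Finset V, P.Nonempty ∧ Q.Nonempty ∧ Disjoint P Q ∧
      P ∪ Q = F ∧ tau R a F = dist a z + tau R z P + tau R z Q := by
  -- for each P a minimising point
  have key : ∀ P : Finset V, ∃ z ∈ R, ∀ w ∈ R,
      dist a z + tau R z P + tau R z (F \ P) ≤ dist a w + tau R w P + tau R w (F \ P) := by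
    intro P
    obtain ⟨z, hz, hmin⟩ := hRc.exists_isMinOn hR
      (f := fun w => dist a w + tau R w P + tau R w (F \ P))
      (((continuous_const.dist continuous_id).add (tau_cont hR P)).add
        (tau_cont hR (F \ P))).continuousOn
    exact ⟨z, hz, fun w hw => hmin hw⟩
  choose zz hzz hmin using key
  set PP := F.powerset.filter (fun P => P.Nonempty ∧ P ≠ F) with hPP
  have hne : PP.Nonempty := by
    obtain ⟨x, hx⟩ := Finset.card_pos.1 (by omega : 0 < F.card)
    refine ⟨{x}, Finset.mem_filter.2 ⟨by simpa using hx, by simp, ?_⟩⟩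
    intro h
    rw [← h] at hF
    simp at hF
  obtain ⟨P, hP, hPmin⟩ := PP.exists_min_image
    (fun P => dist a (zz P) + tau R (zz P) P + tau R (zz P) (F \ P)) hne
  obtain ⟨hP1, hP2, hP3⟩ := Finset.mem_filter.1 hP
  have hPF := Finset.mem_powerset.1 hP1
  have hQne : (F \ P).Nonempty := by
    rw [Finset.sdiff_nonempty]
    exact fun h => hP3 (Finset.Subset.antisymm hPF h)
  have hun : P ∪ (F \ P) = F := Finset.union_sdiff_of_subset hPF
  have hdis : Disjoint P (F \ P) := Finset.disjoint_sdiff
  refine ⟨zz P, hzz P, P, F \ P, hP2, hQne, hdis, hun, ?_⟩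
  apply le_antisymm
  · have := tau_le (a := a) (hzz P) hdis hP2 hQne
    rwa [hun] at this
  · rw [tau_big hF]
    refine le_csInf (vals_nonempty hR a hF) ?_
    rintro L ⟨z, hz, P', Q', hP', hQ', hd', hu', rfl⟩
    have hP'F : P' ⊆ F := hu' ▸ Finset.subset_union_left
    have hQ'eq : F \ P' = Q' := by
      rw [← hu', Finset.union_sdiff_left]
      exact Finset.sdiff_eq_self_of_disjoint hd'.symm
    have hmem : P' ∈ PP := by
      refine Finset.mem_filter.2 ⟨Finset.mem_powerset.2 hP'F, ?_, ?_⟩
      · rw [Finset.nonempty_iff_ne_empty]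
        rintro rfl
        rw [Finset.empty_union] at hu'
        rw [hu'] at hQ'
        exact lt_irrefl _ hQ'
      · rintro rfl
        exact lt_irrefl _ hP'
    have h1 := hPmin P' hmem
    have h2 := hmin P' z hz
    rw [hQ'eq] at h2
    simp only [hQ'eq] at h1
    linarith

theorem tau_join {R : Set V} {a : V} (ha : a ∈ R) {F G : Finset V} (hd : Disjoint F G) :
    tau R a (F ∪ G) ≤ tau R a F + tau R a G := by
  rcases F.eq_empty_or_nonempty with rfl | hF
  · rw [Finset.empty_union, tau_empty]; linarith
  rcases G.eq_empty_or_nonempty with rfl | hG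
  · rw [Finset.union_empty, tau_empty]; linarith
  have := tau_le (a := a) ha hd hF hG
  rw [dist_self] at this
  linarith

theorem tau_sum {R : Set V} {a : V} (ha : a ∈ R) (F : Finset V) :
    tau R a F ≤ ∑ f ∈ F, dist a f := by
  induction F using Finset.induction_on with
  | empty => rw [tau_empty]; simp
  | insert x F hx ih =>
    rw [Finset.sum_insert hx]
    have h1 : Disjoint ({x} : Finset V) F := by simpa using hx
    have h2 := tau_join ha h1
    rw [tau_single] at h2
    rw [Finset.insert_eq]
    linarith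

theorem tau_subst {R : Set V} (hRc : IsCompact R) (n : ℕ) : ∀ F : Finset V, F.card ≤ n →
    ∀ a ∈ R, ∀ w ∈ R, ∀ G : Finset V, G.Nonempty → Disjoint F G → w ∉ F →
    tau R a (F ∪ G) ≤ tau R a (insert w F) + tau R w G := by
  induction n with
  | zero =>
    intro F hF a ha w hw G hG hd hwF
    have hF0 : F = ∅ := Finset.card_eq_zero.1 (by omega)
    subst hF0
    rw [Finset.empty_union]
    have : insert w (∅ : Finset V) = {w} := rfl
    rw [this, tau_single]
    exact tau_lip ⟨a, ha⟩ a w G
  | succ n ih =>
    intro F hF a ha w hw G hG hd hwF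
    rcases F.eq_empty_or_nonempty with rfl | hFne
    · exact ih ∅ (by simp) a ha w hw G hG hd hwF
    have hc : 1 < (insert w F).card := by
      rw [Finset.card_insert_of_notMem hwF]
      have := hFne.card_pos
      omega
    -- the step with `w` in the first part
    have step : ∀ z ∈ R, ∀ P Q : Finset V, Q.Nonempty → Disjoint P Q → P ∪ Q = insert w F →
        w ∈ P → tau R a (F ∪ G) ≤ dist a z + tau R z P + tau R z Q + tau R w G := by
      intro z hz P Q hQ hPQ hu hwP
      have hwQ : w ∉ Q := fun h => Finset.disjoint_left.1 hPQ hwP h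
      have hun : (P.erase w) ∪ Q = F := by
        ext y
        have hy : y ∈ P ∪ Q ↔ y ∈ insert w F := by rw [hu]
        simp only [Finset.mem_union, Finset.mem_insert, Finset.mem_erase] at hy ⊢
        constructor
        · rintro (⟨h1, h2⟩ | h)
          · exact (hy.1 (Or.inl h2)).resolve_left h1
          · exact (hy.1 (Or.inr h)).resolve_left (fun h' => hwQ (h' ▸ h))
        · intro h
          rcases hy.2 (Or.inr h) with h1 | h1
          · exact Or.inl ⟨fun h' => hwF (h' ▸ h), h1⟩
          · exact Or.inr h1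
      have hd1 : Disjoint (P.erase w) Q := hPQ.mono_left (Finset.erase_subset _ _)
      have hcard : (P.erase w).card ≤ n := by
        have h1 : (P.erase w).card + Q.card = F.card := by
          rw [← Finset.card_union_of_disjoint hd1, hun]
        have := hQ.card_pos
        omega
      have hPF : P.erase w ⊆ F := hun ▸ Finset.subset_union_left
      have hQF : Q ⊆ F := hun ▸ Finset.subset_union_right
      have h1 := ih (P.erase w) hcard z hz w hw G hG (hd.mono_left hPF) (Finset.notMem_erase w P)
      rw [Finset.insert_erase hwP] at h1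
      have hd2 : Disjoint (P.erase w ∪ G) Q := by
        rw [Finset.disjoint_union_left]
        exact ⟨hd1, (hd.mono_left hQF).symm⟩
      have h2 := tau_le (a := a) hz hd2 (hG.mono Finset.subset_union_right) hQ
      have hun2 : P.erase w ∪ G ∪ Q = F ∪ G := by
        rw [← hun, Finset.union_right_comm]
      rw [hun2] at h2
      linarith
    obtain ⟨z, hz, P, Q, hP, hQ, hPQ, hu, heq⟩ := tau_attain hRc ⟨a, ha⟩ a hc
    rw [heq]
    have hw1 : w ∈ P ∪ Q := by rw [hu]; exact Finset.mem_insert_self _ _
    rcases Finset.mem_union.1 hw1 with h | h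
    · exact step z hz P Q hQ hPQ hu h
    · have := step z hz Q P hP hPQ.symm (by rw [Finset.union_comm, hu]) h
      linarith

theorem tau_chain {R : Set V} (hRc : IsCompact R) {η : ℝ} {U : Set V} {s : ℝ} (h : Chain η U s) :
    U ⊆ R → ∀ a ∈ U, ∀ F : Finset V, (F : Set V) ⊆ U → tau R a F ≤ s + F.card * η := by
  induction h with
  | base O c hc0 hc hη =>
    intro hOR a ha F hF
    have h1 := tau_sum (hOR ha) F
    have h2 : ∑ f ∈ F, dist a f ≤ F.card * c := by
      have := Finset.sum_le_card_nsmul F (fun f => dist a f) c (fun f hf => hc a ha f (hF hf))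
      simpa using this
    have h3 : (F.card : ℝ) * c ≤ F.card * η := by
      exact mul_le_mul_of_nonneg_left hη (Nat.cast_nonneg _)
    linarith
  | step U s O c hU w hwU hwO hc0 hc hη ih =>
    intro hR a ha F hF
    have hUR : U ⊆ R := subset_union_left.trans hR
    have hOR : O ⊆ R := subset_union_right.trans hR
    have hwR : w ∈ R := hUR hwU
    have ihU := ih hUR
    have hη0 : 0 ≤ η := hc0.trans hη
    set FU := F.filter (fun x => x ∈ U) with hFU
    set FO := F.filter (fun x => x ∉ U) with hFO
    have hun : FU ∪ FO = F := Finset.filter_union_filter_not_eq _ F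
    have hdis : Disjoint FU FO := Finset.disjoint_filter_filter_not _ _ _
    have hcard : (F.card : ℝ) = FU.card + FO.card := by
      rw [← hun, Finset.card_union_of_disjoint hdis]; push_cast; rfl
    have hFUU : (FU : Set V) ⊆ U := by
      intro x hx
      exact (Finset.mem_filter.1 (Finset.mem_coe.1 hx)).2
    have hFOO : ∀ x ∈ FO, x ∈ O := by
      intro x hx
      obtain ⟨h1, h2⟩ := Finset.mem_filter.1 hx
      exact (hF h1).resolve_left h2
    have hwFO : w ∉ FO := fun h => (Finset.mem_filter.1 h).2 hwU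
    have hsumO : ∑ f ∈ FO, dist w f ≤ FO.card * c := by
      have := Finset.sum_le_card_nsmul FO (fun f => dist w f) c
        (fun f hf => hc w hwO f (hFOO f hf))
      simpa using this
    have hcc : (FO.card : ℝ) * c ≤ FO.card * η :=
      mul_le_mul_of_nonneg_left hη (Nat.cast_nonneg _)
    rcases ha with ha | ha
    · rcases FO.eq_empty_or_nonempty with h0 | hne
      · have h1 := ihU a ha FU hFUU
        have h2 : FU = F := by rw [← hun, h0, Finset.union_empty]
        rw [h2] at h1
        linarith
      · by_cases hwF : w ∈ FU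
        · have hG : (insert w FO).Nonempty := Finset.insert_nonempty _ _
          have hd1 : Disjoint (FU.erase w) (insert w FO) := by
            rw [Finset.disjoint_insert_right]
            exact ⟨Finset.notMem_erase w FU, hdis.mono_left (Finset.erase_subset _ _)⟩
          have h1 := tau_subst hRc (FU.erase w).card (FU.erase w) le_rfl a (hUR ha) w hwR
            (insert w FO) hG hd1 (Finset.notMem_erase w FU)
          rw [Finset.insert_erase hwF] at h1
          have hun2 : FU.erase w ∪ insert w FO = F := by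
            rw [Finset.union_insert, ← Finset.insert_union, Finset.insert_erase hwF, hun]
          rw [hun2] at h1
          have h2 := tau_sum hwR (insert w FO)
          rw [Finset.sum_insert hwFO, dist_self, zero_add] at h2
          have h3 := ihU a ha FU hFUU
          rw [hcard]
          linarith
        · have h1 := tau_subst hRc FU.card FU le_rfl a (hUR ha) w hwR FO hne hdis hwF
          rw [hun] at h1
          have h2 := tau_sum hwR FO
          have h3 := ihU a ha (insert w FU) (by
            intro x hx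
            rcases Finset.mem_insert.1 (Finset.mem_coe.1 hx) with rfl | h
            · exact hwU
            · exact hFUU h)
          rw [Finset.card_insert_of_notMem hwF] at h3
          push_cast at h3
          rw [hcard]
          have h4 : (1 : ℝ) ≤ FO.card := by exact_mod_cast hne.card_pos
          have h5 : ((FO.card : ℝ) - 1) * c ≤ (FO.card - 1) * η :=
            mul_le_mul_of_nonneg_left hη (by linarith)
          linarith
    · have h1 := tau_lip ⟨w, hwR⟩ a w F
      have h2 := tau_join hwR hdis
      rw [hun] at h2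
      have h3 := ihU w hwU FU hFUU
      have h4 := tau_sum hwR FO
      have h5 := hc a ha w hwO
      rw [hcard]
      linarith

theorem chain_map {η : ℝ} {U : Set V} {s : ℝ} (h : Chain η U s) {p : V → V}
    (hp : ∀ x y, dist (p x) (p y) ≤ dist x y) : Chain η (p '' U) s := by
  induction h with
  | base O c hc0 hc hη =>
    refine Chain.base _ c hc0 ?_ hη
    rintro _ ⟨x, hx, rfl⟩ _ ⟨y, hy, rfl⟩
    exact (hp x y).trans (hc x hx y hy)
  | step U s O c hU w hwU hwO hc0 hc hη ih =>
    rw [image_union]
    refine Chain.step _ _ _ c ih (p w) ⟨w, hwU, rfl⟩ ⟨w, hwO, rfl⟩ hc0 ?_ hη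
    rintro _ ⟨x, hx, rfl⟩ _ ⟨y, hy, rfl⟩
    exact (hp x y).trans (hc x hx y hy)

/-- the projection to a compact convex set -/
theorem exists_proj {R : Set V} (hRc : IsCompact R) (hR : R.Nonempty) (hconv : Convex ℝ R) :
    ∃ p : V → V, (∀ x, p x ∈ R) ∧ (∀ x ∈ R, p x = x) ∧ ∀ x y, dist (p x) (p y) ≤ dist x y := by
  have key : ∀ x : V, ∃ v ∈ R, ∀ w ∈ R, inner ℝ (x - v) (w - v) ≤ 0 := by
    intro x
    obtain ⟨v, hv, h⟩ := exists_norm_eq_iInf_of_complete_convex hR hRc.isComplete hconv x
    exact ⟨v, hv, (norm_eq_iInf_iff_real_inner_le_zero hconv hv).1 h⟩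
  choose p hp1 hp2 using key
  refine ⟨p, hp1, ?_, ?_⟩
  · intro x hx
    have h1 := hp2 x x hx
    rw [real_inner_self_eq_norm_sq] at h1
    have h2 : ‖x - p x‖ = 0 := by
      have := norm_nonneg (x - p x)
      nlinarith
    exact (sub_eq_zero.1 (norm_eq_zero.1 h2)).symm
  · intro x y
    have h1 := hp2 x (p y) (hp1 y)
    have h2 := hp2 y (p x) (hp1 x)
    have h3 : ‖p x - p y‖ ^ 2 ≤ inner ℝ (x - y) (p x - p y) := by
      rw [← real_inner_self_eq_norm_sq]
      have e1 : inner ℝ (x - p x) (p y - p x) + inner ℝ (y - p y) (p x - p y) =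
          inner ℝ (p x - p y) (p x - p y) - inner ℝ (x - y) (p x - p y) := by
        have e2 : p y - p x = -(p x - p y) := by abel
        rw [e2, inner_neg_right, ← inner_sub_left, ← neg_inj, neg_add, neg_neg, ← sub_eq_add_neg,
          ← inner_sub_left, ← inner_neg_left]
        congr 1
        abel
      linarith
    have h4 := real_inner_le_norm (x - y) (p x - p y)
    rw [dist_eq_norm, dist_eq_norm]
    rcases eq_or_lt_of_le (norm_nonneg (p x - p y)) with h0 | h0
    · rw [← h0]; exact norm_nonneg _
    · have h5 : ‖p x - p y‖ * ‖p x - p y‖ ≤ ‖x - y‖ * ‖p x - p y‖ := by nlinarith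
      exact le_of_mul_le_mul_right h5 h0

end tau

section main
variable {V : Type*} [NormedAddCommGroup V] [InnerProductSpace ℝ V] [MeasurableSpace V] [BorelSpace V]
open scoped Classical

/-- the tree of length `tau` -/
theorem net {R : Set V} (hRc : IsCompact R) (hR : R.Nonempty) (n : ℕ) :
    ∀ (F : Finset V), F.card ≤ n → ∀ a : V, ∃ S : Set V, IsCompact S ∧ IsConnected S ∧ a ∈ S ∧
      (∀ f ∈ F, f ∈ S) ∧ μH[1] S ≤ ENNReal.ofReal (tau R a F) := by
  have segc : ∀ a b : V, IsCompact (segment ℝ a b) := by
    intro a b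
    rw [segment_eq_image_lineMap]
    exact isCompact_Icc.image (by fun_prop)
  have segn : ∀ a b : V, IsConnected (segment ℝ a b) := fun a b =>
    (convex_segment a b).isConnected ⟨a, left_mem_segment ℝ a b⟩
  have small : ∀ (F : Finset V), F.card ≤ 1 → ∀ a : V, ∃ S : Set V, IsCompact S ∧
      IsConnected S ∧ a ∈ S ∧ (∀ f ∈ F, f ∈ S) ∧ μH[1] S ≤ ENNReal.ofReal (tau R a F) := by
    intro F hF a
    rcases Finset.card_le_one_iff_subset_singleton.1 hF with ⟨x, hx⟩
    rcases Finset.subset_singleton_iff.1 hx with rfl | rfl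
    · refine ⟨segment ℝ a a, segc a a, segn a a, left_mem_segment ℝ a a, by simp, ?_⟩
      rw [hausdorffMeasure_segment, edist_self]
      exact zero_le
    · refine ⟨segment ℝ a x, segc a x, segn a x, left_mem_segment ℝ a x, ?_, ?_⟩
      · intro f hf
        rw [Finset.mem_singleton.1 hf]
        exact right_mem_segment ℝ a x
      · rw [hausdorffMeasure_segment, tau_single, edist_dist]
  induction n with
  | zero => exact fun F hF a => small F (by omega) a
  | succ n ih =>
    intro F hF a
    by_cases h1 : F.card ≤ 1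
    · exact small F h1 a
    obtain ⟨z, hz, P, Q, hP, hQ, hPQ, hu, heq⟩ := tau_attain hRc hR a (F := F) (by omega)
    have hc := card_lt hPQ hP hQ
    rw [hu] at hc
    obtain ⟨S1, c1, n1, z1, f1, m1⟩ := ih P (by omega) z
    obtain ⟨S2, c2, n2, z2, f2, m2⟩ := ih Q (by omega) z
    refine ⟨segment ℝ a z ∪ (S1 ∪ S2), (segc a z).union (c1.union c2), ?_, ?_, ?_, ?_⟩
    · refine (segn a z).union ⟨z, right_mem_segment ℝ a z, Or.inl z1⟩ ?_
      exact n1.union ⟨z, z1, z2⟩ n2
    · exact Or.inl (left_mem_segment ℝ a z)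
    · intro f hf
      rw [← hu] at hf
      rcases Finset.mem_union.1 hf with h | h
      · exact Or.inr (Or.inl (f1 f h))
      · exact Or.inr (Or.inr (f2 f h))
    · rw [heq, ENNReal.ofReal_add (add_nonneg dist_nonneg (tau_nonneg _ _ _)) (tau_nonneg _ _ _),
        ENNReal.ofReal_add dist_nonneg (tau_nonneg _ _ _), add_assoc]
      refine (measure_union_le _ _).trans ?_
      refine add_le_add ?_ ((measure_union_le _ _).trans (add_le_add m1 m2))
      rw [hausdorffMeasure_segment, edist_dist]

theorem tau_lower [ProperSpace V] {R : Set V} (hRc : IsCompact R) (hconv : Convex ℝ R)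
    {A : Finset V} (hAR : ∀ a ∈ A, a ∈ R) {a : V} (ha : a ∈ A) {T : Set V} (hT : IsClosed T)
    (hTc : IsConnected T) (hAT : ∀ a ∈ A, a ∈ T) (hfin : μH[1] T ≠ ∞) :
    tau R a (A.erase a) ≤ (μH[1] T).toReal := by
  obtain ⟨p, hp1, hp2, hp3⟩ := exists_proj hRc ⟨a, hAR a ha⟩ hconv
  have hcomp := compact_of_conn hTc.isPreconnected hT ⟨a, hAT a ha⟩ hfin
  refine le_of_forall_pos_le_add fun ε hε => ?_
  set n : ℝ := ((A.erase a).card : ℝ) with hn
  have hn0 : 0 ≤ n := Nat.cast_nonneg _
  have hη : 0 < ε / (n + 1) := by positivity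
  obtain ⟨U, s, hU, hTU, hs⟩ := exists_chain hcomp hTc.isPreconnected ⟨a, hAT a ha⟩ hfin hη
  have h1 := chain_map hU hp3
  have hmem : ∀ b ∈ A, b ∈ p '' U := fun b hb => ⟨b, hTU (hAT b hb), hp2 b (hAR b hb)⟩
  have h2 := tau_chain hRc h1 (by rintro _ ⟨x, _, rfl⟩; exact hp1 x) a (hmem a ha) (A.erase a)
    (fun b hb => hmem b (Finset.mem_of_mem_erase (Finset.mem_coe.1 hb)))
  rw [← hn] at h2
  have h3 : ε / (n + 1) + n * (ε / (n + 1)) = ε := by field_simp; ring
  linarith

theorem exists_min [ProperSpace V] (A : Finset V) (hA : A.Nonempty) :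
    ∃ S : Set V, IsCompact S ∧ IsConnected S ∧ (∀ a ∈ A, a ∈ S) ∧ μH[1] S ≠ ∞ ∧
      ∀ T : Set V, IsClosed T → IsConnected T → (∀ a ∈ A, a ∈ T) → μH[1] S ≤ μH[1] T := by
  obtain ⟨a, ha⟩ := hA
  set R := convexHull ℝ (A : Set V) with hRdef
  have hRc : IsCompact R := A.finite_toSet.isCompact_convexHull ℝ
  have hconv : Convex ℝ R := convex_convexHull ℝ _
  have hAR : ∀ a ∈ A, a ∈ R := fun a ha => subset_convexHull ℝ _ (Finset.mem_coe.2 ha)
  obtain ⟨S, h1, h2, h3, h4, h5⟩ := net hRc ⟨a, hAR a ha⟩ (A.erase a).card (A.erase a) le_rfl a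
  refine ⟨S, h1, h2, ?_, ne_top_of_le_ne_top ENNReal.ofReal_ne_top h5, ?_⟩
  · intro b hb
    by_cases hba : b = a
    · rw [hba]; exact h3
    · exact h4 b (Finset.mem_erase.2 ⟨hba, hb⟩)
  · intro T hT hTc hAT
    by_cases hfin : μH[1] T = ∞
    · rw [hfin]; exact le_top
    have h6 := tau_lower hRc hconv hAR ha hT hTc hAT hfin
    calc μH[1] S ≤ ENNReal.ofReal (tau R a (A.erase a)) := h5
      _ ≤ ENNReal.ofReal (μH[1] T).toReal := ENNReal.ofReal_le_ofReal h6
      _ = μH[1] T := ENNReal.ofReal_toReal hfin

end main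
end EX

theorem st_ex (d : ℕ) : ST_EX d := by
  intro A hA
  obtain ⟨S, h1, h2, h3, h4, h5⟩ := EX.exists_min A hA
  exact ⟨S, h1, h2, h3, h4, h5⟩

end H11ST
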