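import Pool.Agent.H11ST.St3
open MeasureTheory Metric Set Filter Topology
open scoped ENNReal NNReal

/-!
Minimal connected sets through a finite set lie in its convex hull (row ST_HULL).
-/

namespace H11ST

/-- a minimal set is locally admissible in every ball without points of `A` -/
theorem Mini.locAdm {d : ℕ} {A : Finset (E d)} {S : Set (E d)} (h : Mini A S) {x : E d} {r : ℝ}
    (hr : 0 < r) (hA : ∀ a ∈ A, a ∉ ball x r) : LocAdm (A : Set (E d)) S x r where
  rpos := hr
  hS := h.compact.isClosed
  conn := by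
    have : S ∪ (A : Set (E d)) = S := union_eq_self_of_subset_right fun a ha => h.sub a ha
    rw [this]; exact h.conn
  far := fun z hz => hA z hz
  fin := ne_top_of_le_ne_top h.fin (measure_mono inter_subset_left)
  minim := by
    intro T hT hTc hTS
    have hAT : ∀ a ∈ A, a ∈ T := by
      intro a ha
      have : a ∈ S \ ball x r := ⟨h.sub a ha, hA a ha⟩
      rw [← hTS] at this
      exact this.1
    have hTA : T ∪ (A : Set (E d)) = T := union_eq_self_of_subset_right fun a ha => hAT a ha
    rw [hTA] at hTc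
    have h1 := h.minim T hT hTc hAT
    have hm : MeasurableSet (ball x r) := isOpen_ball.measurableSet
    rw [← measure_inter_add_sdiff S hm, ← measure_inter_add_sdiff T hm, hTS] at h1
    have h2 : μH[1] (S \ ball x r) ≠ ∞ := ne_top_of_le_ne_top h.fin (measure_mono sdiff_subset)
    exact (ENNReal.add_le_add_iff_right h2).1 h1

theorem tri_sum {V : Type*} [NormedAddCommGroup V] [InnerProductSpace ℝ V] {u : Fin 3 → V}
    (hn : ∀ i, ‖u i‖ = 1) (ha : ∀ i j, i ≠ j → inner ℝ (u i) (u j) = -(1 / 2 : ℝ)) :
    u 0 + u 1 + u 2 = 0 := by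
  have h0 : inner ℝ (u 0 + u 1 + u 2) (u 0 + u 1 + u 2) = (0 : ℝ) := by
    simp only [inner_add_left, inner_add_right, real_inner_self_eq_norm_sq, hn]
    rw [ha 0 1 (by decide), ha 0 2 (by decide), ha 1 0 (by decide), ha 1 2 (by decide),
      ha 2 0 (by decide), ha 2 1 (by decide)]
    norm_num
  exact inner_self_eq_zero.1 h0

theorem hull (d : ℕ) (hd : 1 ≤ d) : ST_HULL d := by
  intro A S hA h z hz
  by_contra hzA
  have hclosed : IsClosed (convexHull ℝ (A : Set (E d))) :=
    (A.finite_toSet.isCompact_convexHull ℝ).isClosed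
  obtain ⟨f, c, hf1, hf2⟩ := geometric_hahn_banach_closed_point (convex_convexHull ℝ _) hclosed hzA
  obtain ⟨w, hw, hmax⟩ := h.compact.exists_isMaxOn ⟨z, hz⟩ f.continuous.continuousOn
  have hfw : ∀ v ∈ S, f v ≤ f w := fun v hv => hmax hv
  have hcw : c < f w := hf2.trans_le (hfw z hz)
  have hfA : ∀ a ∈ A, f a < c := fun a ha => hf1 a (subset_convexHull ℝ _ (Finset.mem_coe.2 ha))
  have key : ∀ v : E d, v ∈ S → f v = f w → ∃ ε : ℝ, 0 < ε ∧ ∀ q ∈ S ∩ ball v ε, f q = f w := by
    intro v hv hfv
    have hvA : v ∉ (A : Set (E d)) := fun hvA => by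
      have := hfA v (Finset.mem_coe.1 hvA)
      linarith
    obtain ⟨R, hR, hRA⟩ := Metric.isOpen_iff.1 A.finite_toSet.isClosed.isOpen_compl v hvA
    have L := h.locAdm (x := v) hR fun a ha haR => hRA haR (Finset.mem_coe.2 ha)
    obtain ⟨a, ha⟩ := hA
    have hne : ∃ q ∈ S ∪ (A : Set (E d)), q ≠ v := by
      refine ⟨a, Or.inl (h.sub a ha), ?_⟩
      rintro rfl
      exact hvA (Finset.mem_coe.2 ha)
    rcases reg hd _ _ _ _ L A.finite_toSet.isClosed v ⟨hv, mem_ball_self hR⟩ hne with
      ⟨u, ε, hl⟩ | ⟨u, ε, ht⟩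
    · refine ⟨ε, hl.pos, ?_⟩
      have hmem : ∀ s : ℝ, |s| < ε → v + s • u ∈ S := by
        intro s hs
        have : v + s • u ∈ S ∩ ball v ε := by
          rw [hl.eq]; exact ⟨s, hs, rfl⟩
        exact this.1
      have hfu : ∀ s : ℝ, |s| < ε → s * f u ≤ 0 := by
        intro s hs
        have h1 := hfw _ (hmem s hs)
        rw [map_add, map_smul, smul_eq_mul, hfv] at h1
        linarith
      have hp := hl.pos
      have h1 := hfu (ε / 2) (by rw [abs_of_pos (by linarith)]; linarith)
      have h2 := hfu (-(ε / 2)) (by rw [abs_neg, abs_of_pos (by linarith)]; linarith)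
      have h3 : f u = 0 := by
        have e1 : f u ≤ 0 := by
          by_contra hcon
          push_neg at hcon
          nlinarith
        have e2 : 0 ≤ f u := by
          by_contra hcon
          push_neg at hcon
          nlinarith
        linarith
      intro q hq
      rw [hl.eq] at hq
      obtain ⟨s, _, rfl⟩ := hq
      rw [map_add, map_smul, h3, hfv]
      simp
    · refine ⟨ε, ht.pos, ?_⟩
      have hmem : ∀ (i : Fin 3) (s : ℝ), 0 ≤ s → s < ε → v + s • u i ∈ S := by
        intro i s h0 hs
        have : v + s • u i ∈ S ∩ ball v ε := by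
          rw [ht.eq]; exact ⟨i, s, h0, hs, rfl⟩
        exact this.1
      have hp := ht.pos
      have hfu : ∀ i, f (u i) ≤ 0 := by
        intro i
        have h1 := hfw _ (hmem i (ε / 2) (by linarith) (by linarith))
        rw [map_add, map_smul, smul_eq_mul, hfv] at h1
        by_contra hcon
        push_neg at hcon
        nlinarith
      have hsum := congrArg f (tri_sum ht.norm ht.ang)
      rw [map_add, map_add, map_zero] at hsum
      have h0 := hfu 0
      have h1 := hfu 1
      have h2 := hfu 2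
      have hz : ∀ i, f (u i) = 0 := by
        intro i
        fin_cases i
        · change f (u 0) = 0; linarith
        · change f (u 1) = 0; linarith
        · change f (u 2) = 0; linarith
      intro q hq
      rw [ht.eq] at hq
      obtain ⟨i, s, _, _, rfl⟩ := hq
      rw [map_add, map_smul, hz i, hfv]
      simp
  choose! ε hε hεq using key
  set U : Set (E d) := ⋃ v ∈ {v : E d | v ∈ S ∧ f v = f w}, ball v (ε v) with hU
  have hUo : IsOpen U := isOpen_biUnion fun v _ => isOpen_ball
  have hWo : IsOpen {v : E d | f v < f w} := isOpen_lt f.continuous continuous_const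
  have hcov : S ⊆ U ∪ {v : E d | f v < f w} := by
    intro v hv
    rcases eq_or_lt_of_le (hfw v hv) with h1 | h1
    · exact Or.inl (mem_biUnion (show v ∈ {v : E d | v ∈ S ∧ f v = f w} from ⟨hv, h1⟩)
        (mem_ball_self (hε v hv h1)))
    · exact Or.inr h1
  obtain ⟨a, ha⟩ := hA
  obtain ⟨q, hqS, hqU, hqW⟩ := h.conn.isPreconnected U {v : E d | f v < f w} hUo hWo hcov
    ⟨w, hw, mem_biUnion (show w ∈ {v : E d | v ∈ S ∧ f v = f w} from ⟨hw, rfl⟩)
      (mem_ball_self (hε w hw rfl))⟩
    ⟨a, h.sub a ha, by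
      have := hfA a ha
      show f a < f w
      linarith⟩
  obtain ⟨v, ⟨hv1, hv2⟩, hqv⟩ := mem_iUnion₂.1 hqU
  have h1 := hεq v hv1 hv2 q ⟨hqS, hqv⟩
  have h2 : f q < f w := hqW
  linarith

end H11ST
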