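import Pool.Agent.Helper34.ST.Basic

/-!
# NL: cheap directed paths in a component of the layered graph, all heights
-/

set_option autoImplicit false

namespace Pool.Agent.Helper34.ST

open Finset

variable {ι : Type}

/-- a property closed under successors is inherited along paths -/
theorem nl_closed {r : ι → ι → Prop} {Q : ι → Prop} (h : ∀ a b, Q a → r a b → Q b) {n : ℕ}
    {x y : ι} (hp : Pth r n x y) (hx : Q x) : Q y := by
  obtain ⟨p, hp0, hpn, hp⟩ := hp
  have key : ∀ i, i ≤ n → Q (p i) := by
    intro i
    induction i with
    | zero =>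
      intro _
      rw [hp0]
      exact hx
    | succ i ih =>
      intro hi
      exact h _ _ (ih (by omega)) (hp i (by omega))
  rw [← hpn]
  exact key n le_rfl

theorem st_NL (hNLA : ST_NLA) (hNLB : ST_NLB) (hNL1 : ST_NL1) (hSTAR : ST_STAR) : ST_NL := by
  intro ι _ r d hd hW z hz j e x hj
  have hout : ∀ x, ∃ y, r x y := fun x => hW.exists_out hd x
  have hin : ∀ x, ∃ y, r y x := fun x => hW.exists_in hd x
  rcases Nat.eq_or_lt_of_le hj with h1 | h2
  · subst h1
    exact hNL1 ι r d hd hW z hz e x
  · obtain ⟨_, _, hS3, hS4⟩ := hSTAR ι r hout hin j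
    by_cases hA : ∃ v p, Conn r j x v ∧ r p v ∧ ¬ Conn r j x p
    · obtain ⟨v, p, hv, hpv, hp⟩ := hA
      exact hNLA ι r d hd hW z hz j e x v p h2 hv hpv hp
    · push Not at hA
      obtain ⟨w, hw⟩ := exists_pth_out hout j x
      by_cases hB : ∃ v p, Conn (fun a b => r b a) j w v ∧ r v p ∧ ¬ Conn (fun a b => r b a) j w p
      · obtain ⟨v, p, hv, hpv, hp⟩ := hB
        obtain ⟨c, hc1, hc2, hc3⟩ := hNLA ι (fun a b => r b a) d hd hW.flip z hz j
          (fun i => e (j - 1 - i)) w v p h2 hv hpv hp
        have hstep : ∀ i, i < j → r (c (j - i)) (c (j - (i + 1))) := by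
          intro i hi
          have h3 := hc1 (j - (i + 1)) (by omega)
          have e1 : j - (i + 1) + 1 = j - i := by omega
          rw [e1] at h3
          exact h3
        refine ⟨fun i => c (j - i), hstep, ?_, ?_⟩
        · show Conn r j x (c (j - 0))
          rw [Nat.sub_zero]
          refine hS3 w (c 0) x (c j) hc2 hw ⟨fun i => c (j - i), ?_, ?_, hstep⟩
          · show c (j - 0) = c j
            rw [Nat.sub_zero]
          · show c (j - j) = c 0
            rw [Nat.sub_self]
        · have e1 := Finset.sum_range_reflect
            (fun i => (e i : ℝ) * (z (c (j - i)) + z (c (j - (i + 1))))) j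
          have e2 := Finset.sum_range_reflect (fun i => (e i : ℝ)) j
          rw [← e1, ← e2]
          refine le_trans (le_of_eq ?_) hc3
          refine Finset.sum_congr rfl ?_
          intro i hi
          rw [Finset.mem_range] at hi
          have e3 : j - (j - 1 - i) = i + 1 := by omega
          have e4 : j - (j - 1 - i + 1) = i := by omega
          rw [e3, e4, add_comm (z (c (i + 1)))]
      · push Not at hB
        refine hNLB ι r d hd hW z hz j e x ?_
        intro v y hv hvy
        obtain ⟨q, hq⟩ := exists_pth_in hin j v
        have hxq : Conn r j x q :=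
          nl_closed (r := fun a b => r b a) (Q := fun a => Conn r j x a)
            (fun a b ha hab => hA a b ha hab) hq.flip hv
        have hwv : Conn (fun a b => r b a) j w v := hS4 w v x q hxq hw hq
        have hwy : Conn (fun a b => r b a) j w y := hB v y hwv hvy
        obtain ⟨y', hy'⟩ := exists_pth_out hout j y
        have hwy' : Conn (fun a b => r b a) j w y' :=
          nl_closed (r := r) (Q := fun a => Conn (fun a b => r b a) j w a)
            (fun a b ha hab => hB a b ha hab) hy' hwy
        exact hS3 w y' x y hwy' hw hy'

end Pool.Agent.Helper34.ST
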